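import Mathlib

set_option autoImplicit false

namespace Pool.Agent.Work.MP_dcacaa_nt

open Finset

variable {B : Type*} [CommRing B]

/-- truncated exponential of `h a + h^2 b + h^3 c` (with `6 c6 = 1`, `h^4 = 0`). -/
def Ex (h c6 a b c : B) : B :=
  1 + h * a + h ^ 2 * (b + 3 * c6 * a ^ 2) + h ^ 3 * (c + a * b + c6 * a ^ 3)

lemma Ex_zero (h c6 : B) : Ex h c6 0 0 0 = 1 := by simp [Ex]

lemma Ex_add {h c6 : B} (h4 : h ^ 4 = 0) (hc6 : 6 * c6 = 1) (a b c a' b' c' : B) :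
    Ex h c6 (a + a') (b + b') (c + c') = Ex h c6 a b c * Ex h c6 a' b' c' := by
  unfold Ex
  linear_combination (h^2 * (a * a')) * hc6 - ((a*a'*b + a*a'*b' + a*a'^3*c6 + a*c'
    + 9*a^2*a'^2*c6^2 + 3*a^2*b'*c6 + a^3*a'*c6 + a'*c + 3*a'^2*b*c6 + b*b')
    + h * (3*a*a'^2*b*c6 + a*b*b' + 3*a^2*a'*b'*c6 + 3*a^2*a'^3*c6^2 + 3*a^2*c6*c'
    + 3*a^3*a'^2*c6^2 + a^3*b'*c6 + a'*b*b' + 3*a'^2*c6*c + a'^3*b*c6 + b*c' + b'*c)
    + h^2 * (a*a'*b*b' + a*a'^3*b*c6 + a*b*c' + a^3*a'*b'*c6 + a^3*a'^3*c6^2 + a^3*c6*c'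
    + a'*b'*c + a'^3*c6*c + c*c')) * h4

/-- Expansion of one factor `1 - v x^m`, with `w = v/(1-v)`. -/
lemma Ex_factor {h c6 : B} (v w m : B) (hw : w * (1 - v) = v) :
    1 - v * Ex h c6 m 0 0 = (1 - v) * Ex h c6 (-(w * m)) (-(3 * c6 * (w + w^2)) * m^2)
      (-(c6 * w * (1 + w) * (1 + 2 * w)) * m^3) := by
  unfold Ex
  linear_combination (h * m + 3 * c6 * h^2 * m^2 + c6 * h^3 * m^3) * hw

lemma Ex_inv_factor {h c6 : B} (h4 : h ^ 4 = 0) (hc6 : 6 * c6 = 1) (v w m g g0 : B)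
    (hw : w * (1 - v) = v) (hg : g * (1 - v * Ex h c6 (-m) 0 0) = 1) (hg0 : g0 * (1 - v) = 1) :
    g = g0 * Ex h c6 (-(w * m)) ((3 * c6 * (w + w^2)) * m^2)
      (-(c6 * w * (1 + w) * (1 + 2 * w)) * m^3) := by
  have h1 := Ex_factor (h := h) (c6 := c6) v w (-m) hw
  rw [h1] at hg
  have h2 := Ex_add h4 hc6 (-(w * -m)) (-(3 * c6 * (w + w^2)) * (-m)^2)
      (-(c6 * w * (1 + w) * (1 + 2 * w)) * (-m)^3) (-(w * m)) ((3 * c6 * (w + w^2)) * m^2)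
      (-(c6 * w * (1 + w) * (1 + 2 * w)) * m^3)
  have e1 : -(w * -m) + -(w * m) = 0 := by ring
  have e2 : -(3 * c6 * (w + w^2)) * (-m)^2 + (3 * c6 * (w + w^2)) * m^2 = 0 := by ring
  have e3 : -(c6 * w * (1 + w) * (1 + 2 * w)) * (-m)^3 + -(c6 * w * (1 + w) * (1 + 2 * w)) * m^3
      = 0 := by ring
  rw [e1, e2, e3, Ex_zero] at h2
  set E1 := Ex h c6 (-(w * -m)) (-(3 * c6 * (w + w^2)) * (-m)^2)
      (-(c6 * w * (1 + w) * (1 + 2 * w)) * (-m)^3)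
  set E2 := Ex h c6 (-(w * m)) ((3 * c6 * (w + w^2)) * m^2)
      (-(c6 * w * (1 + w) * (1 + 2 * w)) * m^3)
  calc g = g * 1 * 1 := by ring
    _ = g * (g0 * (1 - v)) * (E1 * E2) := by rw [hg0, ← h2]
    _ = (g * ((1 - v) * E1)) * (g0 * E2) := by ring
    _ = g0 * E2 := by rw [hg, one_mul]

lemma Ex_sum {ι : Type*} {h c6 : B} (h4 : h ^ 4 = 0) (hc6 : 6 * c6 = 1) (s : Finset ι)
    (a b c : ι → B) :
    Ex h c6 (∑ i ∈ s, a i) (∑ i ∈ s, b i) (∑ i ∈ s, c i) = ∏ i ∈ s, Ex h c6 (a i) (b i) (c i) := by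
  classical
  induction s using Finset.induction_on with
  | empty => simp [Ex_zero]
  | insert i s hi ih =>
    rw [sum_insert hi, sum_insert hi, sum_insert hi, prod_insert hi, Ex_add h4 hc6, ih]

/-- coefficient of the linear, quadratic, cubic term of the logarithm -/
def ca (w w' : ℕ → B) (k : ℕ) : B := ∑ j ∈ range k, (-(w j) + -(w' j))
def cb (c6 : B) (w w' : ℕ → B) (k : ℕ) : B :=
  ∑ j ∈ range k, (-(3 * c6 * (w j + w j ^ 2)) + (3 * c6 * (w' j + w' j ^ 2)))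
def cc (c6 : B) (w w' : ℕ → B) (k : ℕ) : B :=
  ∑ j ∈ range k, (-(c6 * w j * (1 + w j) * (1 + 2 * w j)) +
    -(c6 * w' j * (1 + w' j) * (1 + 2 * w' j)))

/-- Expansion of `phi_k(m)`.  `f m j` numerator factor, `g m j` inverse of denominator factor. -/
lemma phi_expand {h c6 : B} (h4 : h ^ 4 = 0) (hc6 : 6 * c6 = 1) (k : ℕ) (v v' w w' g g0 : ℕ → B)
    (m : B) (hw : ∀ j < k, w j * (1 - v j) = v j) (hw' : ∀ j < k, w' j * (1 - v' j) = v' j)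
    (hg : ∀ j < k, g j * (1 - v' j * Ex h c6 (-m) 0 0) = 1)
    (hg0 : ∀ j < k, g0 j * (1 - v' j) = 1) :
    ∏ j ∈ range k, ((1 - v j * Ex h c6 m 0 0) * g j) =
      (∏ j ∈ range k, ((1 - v j) * g0 j)) *
        Ex h c6 (ca w w' k * m) (cb c6 w w' k * m ^ 2) (cc c6 w w' k * m ^ 3) := by
  unfold ca cb cc
  rw [sum_mul, sum_mul, sum_mul, Ex_sum h4 hc6, ← prod_mul_distrib]
  apply prod_congr rfl
  intro j hj
  rw [mem_range] at hj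
  have e1 := Ex_factor (h := h) (c6 := c6) (v j) (w j) m (hw j hj)
  have e2 := Ex_inv_factor h4 hc6 (v' j) (w' j) m (g j) (g0 j) (hw' j hj) (hg j hj) (hg0 j hj)
  rw [e1, e2]
  have e3 := Ex_add h4 hc6 (-(w j * m)) (-(3 * c6 * (w j + w j^2)) * m^2)
      (-(c6 * w j * (1 + w j) * (1 + 2 * w j)) * m^3) (-(w' j * m))
      ((3 * c6 * (w' j + w' j^2)) * m^2) (-(c6 * w' j * (1 + w' j) * (1 + 2 * w' j)) * m^3)
  have r1 : (-(w j) + -(w' j)) * m = -(w j * m) + -(w' j * m) := by ring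
  have r2 : (-(3 * c6 * (w j + w j ^ 2)) + (3 * c6 * (w' j + w' j ^ 2))) * m ^ 2
    = (-(3 * c6 * (w j + w j^2)) * m^2) + ((3 * c6 * (w' j + w' j^2)) * m^2) := by ring
  have r3 : (-(c6 * w j * (1 + w j) * (1 + 2 * w j)) +
    -(c6 * w' j * (1 + w' j) * (1 + 2 * w' j))) * m ^ 3 =
    (-(c6 * w j * (1 + w j) * (1 + 2 * w j)) * m^3) +
    (-(c6 * w' j * (1 + w' j) * (1 + 2 * w' j)) * m^3) := by ring
  rw [r1, r2, r3, e3]
  ring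

/-- A product of `phi`'s with exponents summing to zero. -/
lemma comb {h c6 : B} (h4 : h ^ 4 = 0) (hc6 : 6 * c6 = 1) (P : ℤ → B) (a b c : B)
    (hP : ∀ z : ℤ, P z = P 0 * Ex h c6 (a * (z : B)) (b * (z : B) ^ 2) (c * (z : B) ^ 3))
    (e : ℕ) (u : ℕ → ℤ) (s z1 z2 : ℤ) (hz : z1 + z2 + e * s = 0) :
    P 0 * P z1 * P z2 * ∏ i ∈ range e, (P (u i) * P (s - u i))
      = (P 0) ^ (2 * e + 3) *
        (1 + h ^ 2 * (b * (z1 ^ 2 + z2 ^ 2 + ∑ i ∈ range e, (u i ^ 2 + (s - u i) ^ 2) : ℤ))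
          + h ^ 3 * (c * (z1 ^ 3 + z2 ^ 3 + ∑ i ∈ range e, (u i ^ 3 + (s - u i) ^ 3) : ℤ))) := by
  have h1 : ∏ i ∈ range e, (P (u i) * P (s - u i)) = (P 0) ^ (2 * e) *
      ∏ i ∈ range e, Ex h c6 (a * (s : B)) (b * ((u i ^ 2 + (s - u i) ^ 2 : ℤ) : B))
        (c * ((u i ^ 3 + (s - u i) ^ 3 : ℤ) : B)) := by
    have : (P 0) ^ (2 * e) = ∏ i ∈ range e, (P 0) ^ 2 := by
      rw [prod_const, card_range, ← pow_mul]
    rw [this, ← prod_mul_distrib]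
    apply prod_congr rfl
    intro i _
    rw [hP (u i), hP (s - u i)]
    have e3 := Ex_add h4 hc6 (a * ((u i : ℤ) : B)) (b * ((u i : ℤ) : B) ^ 2)
      (c * ((u i : ℤ) : B) ^ 3) (a * ((s - u i : ℤ) : B)) (b * ((s - u i : ℤ) : B) ^ 2)
      (c * ((s - u i : ℤ) : B) ^ 3)
    have r1 : a * (s : B) = a * ((u i : ℤ) : B) + a * ((s - u i : ℤ) : B) := by
      push_cast; ring
    have r2 : b * ((u i ^ 2 + (s - u i) ^ 2 : ℤ) : B) =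
      b * ((u i : ℤ) : B) ^ 2 + b * ((s - u i : ℤ) : B) ^ 2 := by push_cast; ring
    have r3 : c * ((u i ^ 3 + (s - u i) ^ 3 : ℤ) : B) =
      c * ((u i : ℤ) : B) ^ 3 + c * ((s - u i : ℤ) : B) ^ 3 := by push_cast; ring
    rw [r1, r2, r3, e3]
    ring
  rw [h1, hP z1, hP z2, ← Ex_sum h4 hc6]
  have e4 := Ex_add h4 hc6 (a * (z1 : B)) (b * (z1 : B) ^ 2) (c * (z1 : B) ^ 3)
    (a * (z2 : B)) (b * (z2 : B) ^ 2) (c * (z2 : B) ^ 3)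
  have e5 := Ex_add h4 hc6 (a * (z1 : B) + a * (z2 : B)) (b * (z1 : B) ^ 2 + b * (z2 : B) ^ 2)
    (c * (z1 : B) ^ 3 + c * (z2 : B) ^ 3)
    (∑ i ∈ range e, a * (s : B)) (∑ i ∈ range e, b * ((u i ^ 2 + (s - u i) ^ 2 : ℤ) : B))
    (∑ i ∈ range e, c * ((u i ^ 3 + (s - u i) ^ 3 : ℤ) : B))
  have hz' : (z1 : B) + z2 + e * s = 0 := by exact_mod_cast congrArg (Int.cast : ℤ → B) hz
  have r1 : a * (z1 : B) + a * (z2 : B) + ∑ i ∈ range e, a * (s : B) = 0 := by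
    rw [sum_const, card_range, nsmul_eq_mul]
    linear_combination a * hz'
  have r2 : b * (z1 : B) ^ 2 + b * (z2 : B) ^ 2 +
      ∑ i ∈ range e, b * ((u i ^ 2 + (s - u i) ^ 2 : ℤ) : B)
      = b * (z1 ^ 2 + z2 ^ 2 + ∑ i ∈ range e, (u i ^ 2 + (s - u i) ^ 2) : ℤ) := by
    rw [← mul_sum]; push_cast; ring
  have r3 : c * (z1 : B) ^ 3 + c * (z2 : B) ^ 3 +
      ∑ i ∈ range e, c * ((u i ^ 3 + (s - u i) ^ 3 : ℤ) : B)
      = c * (z1 ^ 3 + z2 ^ 3 + ∑ i ∈ range e, (u i ^ 3 + (s - u i) ^ 3) : ℤ) := by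
    rw [← mul_sum]; push_cast; ring
  rw [r1, r2, r3] at e5
  set E1 := Ex h c6 (a * (z1 : B)) (b * (z1 : B) ^ 2) (c * (z1 : B) ^ 3)
  set E2 := Ex h c6 (a * (z2 : B)) (b * (z2 : B) ^ 2) (c * (z2 : B) ^ 3)
  set E3 := Ex h c6 (∑ i ∈ range e, a * (s : B))
    (∑ i ∈ range e, b * ((u i ^ 2 + (s - u i) ^ 2 : ℤ) : B))
    (∑ i ∈ range e, c * ((u i ^ 3 + (s - u i) ^ 3 : ℤ) : B))
  have e6 : Ex h c6 0 (b * (z1 ^ 2 + z2 ^ 2 + ∑ i ∈ range e, (u i ^ 2 + (s - u i) ^ 2) : ℤ))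
      (c * (z1 ^ 3 + z2 ^ 3 + ∑ i ∈ range e, (u i ^ 3 + (s - u i) ^ 3) : ℤ))
      = 1 + h ^ 2 * (b * (z1 ^ 2 + z2 ^ 2 + ∑ i ∈ range e, (u i ^ 2 + (s - u i) ^ 2) : ℤ))
          + h ^ 3 * (c * (z1 ^ 3 + z2 ^ 3 + ∑ i ∈ range e, (u i ^ 3 + (s - u i) ^ 3) : ℤ)) := by
    unfold Ex; ring
  rw [← e6, e5, e4]
  ring

/-- Ring level conclusion. -/
lemma ring_main {h c6 : B} (h4 : h ^ 4 = 0) (hc6 : 6 * c6 = 1) (N : ℕ) (P : ℕ → ℤ → B)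
    (om a b c : ℕ → B)
    (hP : ∀ k ∈ range (N + 1), ∀ z : ℤ, P k z = P k 0 *
      Ex h c6 (a k * (z : B)) (b k * (z : B) ^ 2) (c k * (z : B) ^ 3))
    (e : ℕ) (s z1 z2 : ℤ) (hz : z1 + z2 + (e + 1 : ℕ) * s = 0) (t : B) (ht : (6 - 2 * (s : B)) * t = 1)
    (hS3 : h ^ 3 * ∑ k ∈ range (N + 1), om k * (P k 0) ^ (2 * (e + 1) + 3) * c k = 0)
    (hT : ∀ u : ℕ → ℤ, (∀ i, u i = 1 ∨ u i = 2) →
      ∑ k ∈ range (N + 1), om k * (P k 0 * P k z1 * P k z2 *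
        ∏ i ∈ range (e + 1), (P k (u i) * P k (s - u i))) = 0) :
    ∑ k ∈ range (N + 1), om k * (P k 0) ^ (2 * (e + 1) + 3) = 0 := by
  set S0 := ∑ k ∈ range (N + 1), om k * (P k 0) ^ (2 * (e + 1) + 3) with hS0
  set S2 := ∑ k ∈ range (N + 1), om k * (P k 0) ^ (2 * (e + 1) + 3) * b k with hS2
  set S3 := ∑ k ∈ range (N + 1), om k * (P k 0) ^ (2 * (e + 1) + 3) * c k with hS3'
  have key : ∀ u : ℕ → ℤ, (∀ i, u i = 1 ∨ u i = 2) →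
      S0 + h ^ 2 * S2 * (z1 ^ 2 + z2 ^ 2 + ∑ i ∈ range (e + 1), (u i ^ 2 + (s - u i) ^ 2) : ℤ)
        = 0 := by
    intro u hu
    have h1 := hT u hu
    have h2 : ∑ k ∈ range (N + 1), om k * (P k 0 * P k z1 * P k z2 *
        ∏ i ∈ range (e + 1), (P k (u i) * P k (s - u i))) =
        S0 + h ^ 2 * S2 * (z1 ^ 2 + z2 ^ 2 + ∑ i ∈ range (e + 1), (u i ^ 2 + (s - u i) ^ 2) : ℤ)
        + h ^ 3 * S3 * (z1 ^ 3 + z2 ^ 3 + ∑ i ∈ range (e + 1), (u i ^ 3 + (s - u i) ^ 3) : ℤ) := by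
      rw [hS0, hS2, hS3', mul_sum, mul_sum, sum_mul, sum_mul, ← sum_add_distrib,
        ← sum_add_distrib]
      apply sum_congr rfl
      intro k hk
      rw [comb h4 hc6 (P k) (a k) (b k) (c k) (hP k hk) (e + 1) u s z1 z2 hz]
      ring
    rw [h2, hS3, zero_mul, add_zero] at h1
    exact h1
  have k1 := key (fun _ => 1) (fun _ => Or.inl rfl)
  have k2 := key (fun i => if i = 0 then 2 else 1) (fun i => by
    by_cases hi : i = 0 <;> simp [hi])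
  rw [sum_range_succ'] at k1 k2
  simp only [Nat.succ_ne_zero, if_false, if_true, one_pow, Nat.add_eq_zero_iff, and_false] at k1 k2
  push_cast at k1 k2
  have k3 : h ^ 2 * S2 * (6 - 2 * (s : B)) = 0 := by linear_combination k2 - k1
  have k4 : h ^ 2 * S2 = 0 := by
    calc h ^ 2 * S2 = (h ^ 2 * S2 * (6 - 2 * (s : B))) * t := by
          rw [mul_assoc (h ^ 2 * S2), ht, mul_one]
      _ = 0 := by rw [k3, zero_mul]
  rw [k4] at k1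
  linear_combination k1

end Pool.Agent.Work.MP_dcacaa_nt
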