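import Mathlib

set_option autoImplicit false

namespace Pool.Agent.Work.MP_dcacaa_nt

open Finset

/-- cubic coefficient as function of `v` -/
noncomputable def kap (v : ℂ) : ℂ :=
  (1 / 6) * (v * (1 - v)⁻¹) * (1 + v * (1 - v)⁻¹) * (1 + 2 * (v * (1 - v)⁻¹))

lemma kap_inv {v : ℂ} (h0 : v ≠ 0) (h1 : v ≠ 1) : kap v⁻¹ = - kap v := by
  unfold kap
  have h2 : (1 : ℂ) - v ≠ 0 := sub_ne_zero.mpr (Ne.symm h1)
  have h3 : v - 1 ≠ 0 := sub_ne_zero.mpr h1
  have h4 : (1 - v⁻¹) = (v - 1) / v := by field_simp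
  have h5 : v⁻¹ * (1 - v⁻¹)⁻¹ = -(1 + v * (1 - v)⁻¹) := by
    rw [h4]
    field_simp
    have : v - 1 = -(1 - v) := by ring
    rw [this]
    field_simp
    ring
  rw [h5]
  ring

/-- `eps_k = prod_{j<k} (-Z^{j-N})` with `Z = y^2` -/
lemma eps_eq {y : ℂ} (hy : y ≠ 0) (N k : ℕ) :
    ∏ j ∈ range k, (-((y ^ 2) ^ j * ((y ^ 2) ^ N)⁻¹)) =
      (-1) ^ k * y ^ ((k : ℤ) * (k - 1) - 2 * N * k) := by
  induction k with
  | zero => simp
  | succ k ih =>
    rw [prod_range_succ, ih]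
    have e1 : ((y ^ 2) ^ k * ((y ^ 2) ^ N)⁻¹) = y ^ ((2 : ℤ) * k - 2 * N) := by
      rw [zpow_sub₀ hy]
      rw [← pow_mul, ← pow_mul, div_eq_mul_inv]
      norm_cast
    rw [e1]
    have e2 : y ^ (((k + 1 : ℕ) : ℤ) * (((k + 1 : ℕ) : ℤ) - 1) - 2 * N * ((k + 1 : ℕ) : ℤ))
        = y ^ ((k : ℤ) * (k - 1) - 2 * N * k) * y ^ ((2 : ℤ) * k - 2 * N) := by
      rw [← zpow_add₀ hy]
      congr 1
      push_cast
      ring
    rw [e2]
    ring

lemma residue_sum (n d e r N : ℕ) (hd : d = 2 * e + 1) (he : 1 ≤ e) (hn : 2 * n = 1 + d * r)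
    (hN : N + r = n) (hn1 : 1 < n) {z : ℂ} (hz : IsPrimitiveRoot z n) :
    ∑ k ∈ range (N + 1), ((z ^ d) ^ (e * k) * (1 - z⁻¹ * (z ^ d) ^ (2 * k))) *
      (∏ j ∈ range k, ((1 - z⁻¹ * (z ^ d) ^ j) * (1 - (z ^ d) ^ (j + 1))⁻¹)) ^ d *
      (∑ j ∈ range k, (-kap (z⁻¹ * (z ^ d) ^ j) + -kap ((z ^ d) ^ (j + 1)))) = 0 := by
  have hn0 : 0 < n := by omega
  have hz0 : z ≠ 0 := hz.ne_zero (by omega)
  have hcop : Nat.Coprime d n := by
    have h1 : Nat.gcd d n ∣ 1 := by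
      have a1 : Nat.gcd d n ∣ d * r := (Nat.gcd_dvd_left d n).mul_right r
      have a2 : Nat.gcd d n ∣ 2 * n := (Nat.gcd_dvd_right d n).mul_left 2
      rw [hn] at a2
      exact (Nat.dvd_add_iff_left a1).mpr a2
    exact Nat.dvd_one.mp h1
  set Z := z ^ d with hZ
  have hZp : IsPrimitiveRoot Z n := hz.pow_of_coprime d hcop
  have hZ0 : Z ≠ 0 := pow_ne_zero _ hz0
  -- d N = 1 + (d-2) n
  have hd2 : 2 ≤ d := by omega
  have hdN : d * N = 1 + (d - 2) * n := by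
    obtain ⟨d', rfl⟩ := Nat.exists_eq_add_of_le hd2
    have : 2 + d' - 2 = d' := by omega
    rw [this]
    have : n = N + r := by omega
    nlinarith
  have hZN : Z ^ N = z := by
    rw [hZ, ← pow_mul, hdN, pow_add, pow_one, mul_comm (d - 2) n, pow_mul, hz.pow_eq_one, one_pow,
      mul_one]
  have hzinv : z⁻¹ = (Z ^ N)⁻¹ := by rw [hZN]
  rw [hzinv]
  have hrn : 0 < r := by
    rcases Nat.eq_zero_or_pos r with h | h
    · subst h; omega
    · exact h
  have hNn : N < n := by omega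
  have hne1 : ∀ j : ℕ, 0 < j → j ≤ N → Z ^ j ≠ 1 := by
    intro j hj hjN h
    have := (hZp.pow_eq_one_iff_dvd j).mp h
    exact absurd (Nat.le_of_dvd hj this) (by omega)
  -- square root
  obtain ⟨y, hy⟩ := IsAlgClosed.exists_pow_nat_eq Z (n := 2) (by norm_num)
  have hy0 : y ≠ 0 := by
    intro h; rw [h] at hy; apply hZ0; rw [← hy]; norm_num
  -- sums of kap
  set S : ℕ → ℂ := fun m => ∑ j ∈ range m, kap (Z ^ (j + 1)) with hS
  have hcc : ∀ k ≤ N, (∑ j ∈ range k, (-kap ((Z ^ N)⁻¹ * Z ^ j) + -kap (Z ^ (j + 1))))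
      = S N - S (N - k) - S k := by
    intro k hk
    rw [sum_add_distrib]
    have h1 : ∑ j ∈ range k, -kap ((Z ^ N)⁻¹ * Z ^ j) = S N - S (N - k) := by
      have h2 : ∀ j ∈ range k, -kap ((Z ^ N)⁻¹ * Z ^ j) = kap (Z ^ (N - j)) := by
        intro j hj
        rw [mem_range] at hj
        have e1 : (Z ^ N)⁻¹ * Z ^ j = (Z ^ (N - j))⁻¹ := by
          have : Z ^ N = Z ^ (N - j) * Z ^ j := by rw [← pow_add]; congr 1; omega
          rw [this]
          have a1 : Z ^ (N - j) ≠ 0 := pow_ne_zero _ hZ0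
          have a2 : Z ^ j ≠ 0 := pow_ne_zero _ hZ0
          field_simp
        rw [e1, kap_inv (pow_ne_zero _ hZ0) (hne1 _ (by omega) (by omega)), neg_neg]
      rw [sum_congr rfl h2, hS]
      simp only
      have h3 : ∑ j ∈ range N, kap (Z ^ (j + 1)) = ∑ j ∈ range (N - k), kap (Z ^ (j + 1)) +
          ∑ j ∈ range k, kap (Z ^ (N - k + j + 1)) := by
        have : N = (N - k) + k := by omega
        conv_lhs => rw [this, sum_range_add]
      rw [h3, add_sub_cancel_left, ← sum_range_reflect (fun j => kap (Z ^ (N - k + j + 1)))]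
      apply sum_congr rfl
      intro j hj
      rw [mem_range] at hj
      congr 2
      omega
    rw [h1, hS]
    simp only [sum_neg_distrib]
    ring
  -- products
  set F : ℕ → ℂ := fun m => ∏ j ∈ range m, (1 - Z ^ (j + 1)) with hF
  have hF0 : ∀ m ≤ N, F m ≠ 0 := by
    intro m hm
    rw [hF]
    simp only
    rw [prod_ne_zero_iff]
    intro j hj h
    rw [mem_range] at hj
    exact hne1 (j + 1) (by omega) (by omega) (by linear_combination -h)
  have hbin : ∀ k ≤ N, (∏ j ∈ range k, ((1 - (Z ^ N)⁻¹ * Z ^ j) * (1 - Z ^ (j + 1))⁻¹))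
      = ((-1) ^ k * y ^ ((k : ℤ) * (k - 1) - 2 * N * k)) * (F N / (F (N - k) * F k)) := by
    intro k hk
    rw [← eps_eq hy0, hy]
    rw [prod_mul_distrib, prod_inv_distrib]
    have h1 : ∏ j ∈ range k, (1 - (Z ^ N)⁻¹ * Z ^ j)
        = (∏ j ∈ range k, (-(Z ^ j * (Z ^ N)⁻¹))) * ∏ j ∈ range k, (1 - Z ^ (N - j)) := by
      rw [← prod_mul_distrib]
      apply prod_congr rfl
      intro j hj
      rw [mem_range] at hj
      have : Z ^ N = Z ^ (N - j) * Z ^ j := by rw [← pow_add]; congr 1; omega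
      rw [this]
      have a1 : Z ^ (N - j) ≠ 0 := pow_ne_zero _ hZ0
      have a2 : Z ^ j ≠ 0 := pow_ne_zero _ hZ0
      field_simp
      ring
    have h2 : F (N - k) * ∏ j ∈ range k, (1 - Z ^ (N - j)) = F N := by
      rw [hF]
      simp only
      have h3 : ∏ j ∈ range N, (1 - Z ^ (j + 1)) = (∏ j ∈ range (N - k), (1 - Z ^ (j + 1))) *
          ∏ j ∈ range k, (1 - Z ^ (N - k + j + 1)) := by
        have : N = (N - k) + k := by omega
        conv_lhs => rw [this, prod_range_add]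
      rw [h3, ← prod_range_reflect (fun j => (1 - Z ^ (N - k + j + 1)))]
      congr 1
      apply prod_congr rfl
      intro j hj
      rw [mem_range] at hj
      congr 2
      omega
    rw [h1, ← h2]
    have a1 := hF0 (N - k) (by omega)
    have a2 := hF0 k hk
    have a3 : ∏ j ∈ range k, (1 - Z ^ (j + 1)) = F k := rfl
    rw [a3]
    field_simp
  -- parity
  have hyn : (y ^ n) ^ 2 = 1 := by
    rw [← pow_mul, mul_comm n 2, pow_mul, hy, hZp.pow_eq_one]
  have hpar : ((-1 : ℂ)) ^ N * (y ^ n) ^ N = 1 := by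
    rcases Nat.even_or_odd N with hNe | hNo
    · rw [hNe.neg_one_pow, one_mul]
      obtain ⟨N', hN'⟩ := hNe
      rw [hN', ← two_mul, pow_mul, hyn, one_pow]
    · have hnn : y ^ n = -1 := by
        have hr : Odd r := by
          by_contra hr
          rw [Nat.not_odd_iff_even] at hr
          obtain ⟨r', hr'⟩ := hr
          have : d * r = 2 * (d * r') := by rw [hr']; ring
          omega
        have hne : Even n := by
          rw [← hN]; exact hNo.add_odd hr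
        obtain ⟨m, hm⟩ := hne
        rcases mul_self_eq_one_iff.mp (show y ^ n * y ^ n = 1 by rw [← sq]; exact hyn) with h | h
        · exfalso
          have : Z ^ m = 1 := by
            rw [← hy, ← pow_mul, two_mul, ← hm, h]
          have h5 := (hZp.pow_eq_one_iff_dvd m).mp this
          exact absurd (Nat.le_of_dvd (by omega) h5) (by omega)
        · exact h
      rw [hnn, ← mul_pow]; norm_num
  have hyn0 : y ^ n ≠ 0 := pow_ne_zero _ hy0
  -- key antisymmetry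
  have key : ∀ k ≤ N, (Z ^ (e * (N - k)) * (1 - (Z ^ N)⁻¹ * Z ^ (2 * (N - k)))) *
      ((-1) ^ (N - k) * y ^ (((N - k : ℕ) : ℤ) * (((N - k : ℕ) : ℤ) - 1)
        - 2 * N * ((N - k : ℕ) : ℤ))) ^ d
      = - ((Z ^ (e * k) * (1 - (Z ^ N)⁻¹ * Z ^ (2 * k))) *
      ((-1) ^ k * y ^ ((k : ℤ) * (k - 1) - 2 * N * k)) ^ d) := by
    intro k hk
    obtain ⟨m, hm⟩ := Nat.exists_eq_add_of_le hk
    have hNk : N - k = m := by omega
    rw [hNk]
    have hN' : (N : ℤ) = k + m := by rw [hm]; push_cast; ring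
    have c1 : ∀ j : ℕ, Z ^ j = y ^ ((2 : ℤ) * j) := by
      intro j
      rw [← hy, ← pow_mul]
      norm_cast
    have c2 : (Z ^ N)⁻¹ = y ^ (-(2 : ℤ) * N) := by
      rw [c1 N, ← zpow_neg]; congr 1
    rw [c2, c1 (e * m), c1 (2 * m), c1 (e * k), c1 (2 * k), ← zpow_add₀ hy0, ← zpow_add₀ hy0]
    rw [mul_pow, mul_pow, ← zpow_natCast (y ^ _) d, ← zpow_natCast (y ^ _) d, ← zpow_mul,
      ← zpow_mul]
    have hodd : Odd d := ⟨e, hd⟩
    have s1 : ((-1 : ℂ) ^ m) ^ d = (-1) ^ m := by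
      rw [← pow_mul, mul_comm, pow_mul, hodd.neg_one_pow]
    have s2 : ((-1 : ℂ) ^ k) ^ d = (-1) ^ k := by
      rw [← pow_mul, mul_comm, pow_mul, hodd.neg_one_pow]
    rw [s1, s2]
    set t := y ^ (-(2 : ℤ) * N + 2 * ((2 * k : ℕ) : ℤ)) with ht
    have ht0 : t ≠ 0 := zpow_ne_zero _ hy0
    have ht' : y ^ (-(2 : ℤ) * N + 2 * ((2 * m : ℕ) : ℤ)) = t⁻¹ := by
      rw [ht, ← zpow_neg]; congr 1; push_cast; rw [hN']; ring
    rw [ht']
    have f1 : 1 - t⁻¹ = -(t⁻¹ * (1 - t)) := by field_simp; ring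
    rw [f1]
    have hdN' : (d : ℤ) * N = 1 + (2 * e - 1) * n := by
      have : ((d * N : ℕ) : ℤ) = ((1 + (d - 2) * n : ℕ) : ℤ) := by rw [hdN]
      rw [Nat.cast_mul, Nat.cast_add, Nat.cast_mul, Nat.cast_sub hd2, hd] at this
      push_cast at this
      rw [hd]; push_cast
      linear_combination this
    have f2 : y ^ ((2 : ℤ) * ((e * m : ℕ) : ℤ)) * t⁻¹ *
        y ^ (((m : ℤ) * (m - 1) - 2 * N * m) * d) = (y ^ n) ^ N *
        (y ^ ((2 : ℤ) * ((e * k : ℕ) : ℤ)) * y ^ (((k : ℤ) * (k - 1) - 2 * N * k) * d)) := by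
      have g1 : (y ^ n) ^ N = y ^ (-(((m : ℤ) - k) * (2 * e - 1) * n)) := by
        have g2 : y ^ (-(((m : ℤ) - k) * (2 * e - 1) * n)) =
            (y ^ n) ^ (-(((m : ℤ) - k) * (2 * e - 1))) := by
          rw [← zpow_natCast y n, ← zpow_mul]; congr 1; ring
        rw [g2]
        have g3 : (-(((m : ℤ) - k) * (2 * e - 1))) = (N : ℤ) + 2 * (-(e * m) + e * k - k) := by
          rw [hN']; ring
        rw [g3, zpow_add₀ hyn0, zpow_mul]
        have g4 : (y ^ n) ^ (2 : ℤ) = 1 := by exact_mod_cast hyn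
        rw [g4, one_zpow, mul_one, zpow_natCast]
      rw [g1, ht, ← zpow_neg, ← zpow_add₀ hy0, ← zpow_add₀ hy0, ← zpow_add₀ hy0, ← zpow_add₀ hy0]
      congr 1
      push_cast
      have hd' : (d : ℤ) = 2 * e + 1 := by rw [hd]; push_cast; ring
      rw [hN'] at hdN' ⊢
      linear_combination (-((m : ℤ) - k)) * hdN' - ((m:ℤ) - k) * hd'
    have s3 : (-1 : ℂ) ^ m * (y ^ n) ^ N = (-1) ^ k := by
      have : (-1 : ℂ) ^ N = (-1) ^ k * (-1) ^ m := by rw [hm, pow_add]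
      rw [this] at hpar
      have h11 : ((-1 : ℂ) ^ k) * (-1) ^ k = 1 := by rw [← mul_pow]; norm_num
      calc (-1 : ℂ) ^ m * (y ^ n) ^ N = ((-1 : ℂ) ^ k * (-1) ^ k) * ((-1 : ℂ) ^ m * (y ^ n) ^ N) := by
            rw [h11, one_mul]
        _ = (-1) ^ k * ((-1 : ℂ) ^ k * (-1) ^ m * (y ^ n) ^ N) := by ring
        _ = (-1) ^ k := by rw [hpar, mul_one]
    calc y ^ ((2 : ℤ) * ((e * m : ℕ) : ℤ)) * -(t⁻¹ * (1 - t)) *
          ((-1) ^ m * y ^ (((m : ℤ) * (m - 1) - 2 * N * m) * d))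
        = -((1 - t) * ((-1) ^ m * (y ^ ((2 : ℤ) * ((e * m : ℕ) : ℤ)) * t⁻¹ *
        y ^ (((m : ℤ) * (m - 1) - 2 * N * m) * d)))) := by ring
      _ = -((1 - t) * (((-1) ^ m * (y ^ n) ^ N) *
        (y ^ ((2 : ℤ) * ((e * k : ℕ) : ℤ)) * y ^ (((k : ℤ) * (k - 1) - 2 * N * k) * d)))) := by
          rw [f2]; ring
      _ = _ := by rw [s3]; ring
  set T : ℕ → ℂ := fun k => (Z ^ (e * k) * (1 - (Z ^ N)⁻¹ * Z ^ (2 * k))) *
      (∏ j ∈ range k, ((1 - (Z ^ N)⁻¹ * Z ^ j) * (1 - Z ^ (j + 1))⁻¹)) ^ d *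
      (∑ j ∈ range k, (-kap ((Z ^ N)⁻¹ * Z ^ j) + -kap (Z ^ (j + 1)))) with hT
  have hanti : ∀ k ∈ range (N + 1), T (N + 1 - 1 - k) = - T k := by
    intro k hk
    rw [mem_range] at hk
    have hk' : k ≤ N := by omega
    have hk2 : N + 1 - 1 - k = N - k := by omega
    rw [hk2, hT]
    simp only
    rw [hcc k hk', hcc (N - k) (by omega), hbin k hk', hbin (N - k) (by omega)]
    have hNN : N - (N - k) = k := by omega
    rw [hNN, mul_pow, mul_pow _ (F N / (F (N - k) * F k)) d]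
    have := key k hk'
    rw [mul_comm (F k) (F (N - k))]
    set F1 := (F N / (F (N - k) * F k)) ^ d
    linear_combination (F1 * (S N - S k - S (N - k))) * this
  have hfin : ∑ k ∈ range (N + 1), T k = - ∑ k ∈ range (N + 1), T k := by
    conv_lhs => rw [← sum_range_reflect]
    rw [sum_congr rfl hanti, sum_neg_distrib]
  have h2 : (2 : ℂ) * ∑ k ∈ range (N + 1), T k = 0 := by linear_combination hfin
  have h3 := (mul_eq_zero.mp h2).resolve_left (by norm_num)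
  exact h3

end Pool.Agent.Work.MP_dcacaa_nt
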