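import Mathlib

set_option autoImplicit false

namespace Pool.Agent.Work.MP_dcacaa_nt

open Finset Polynomial

variable {L : Type*} [Field L]

/-- `q`-shifted factorial `(a;Q)_k`. -/
def poch (a Q : L) (k : ℕ) : L := ∏ j ∈ range k, (1 - a * Q ^ j)

lemma poch_zero (a Q : L) : poch a Q 0 = 1 := by simp [poch]

lemma poch_add (b Q : L) (m k : ℕ) :
    poch b Q (m + k) = poch b Q m * poch (b * Q ^ m) Q k := by
  unfold poch
  rw [prod_range_add]
  congr 1
  apply prod_congr rfl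
  intro j _
  ring

lemma poch_swap (b Q : L) (m k : ℕ) :
    poch b Q m * poch (b * Q ^ m) Q k = poch b Q k * poch (b * Q ^ k) Q m := by
  rw [← poch_add, ← poch_add, add_comm]

/-- the quotient `(b Q^m)_k / (b)_k` as a polynomial type expression in `Q^k`. -/
lemma poch_quot (b Q : L) (m k : ℕ) (h1 : poch b Q k ≠ 0) (h2 : poch b Q m ≠ 0) :
    poch (b * Q ^ m) Q k / poch b Q k = poch (b * Q ^ k) Q m / poch b Q m := by
  rw [div_eq_div_iff h1 h2]
  linear_combination poch_swap b Q m k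

lemma poch_ne_zero {b Q : L} (h : ∀ j : ℕ, b * Q ^ j ≠ 1) (k : ℕ) : poch b Q k ≠ 0 := by
  unfold poch
  rw [prod_ne_zero_iff]
  intro j _ h0
  exact h j (by linear_combination -h0)

/-- The node `X_k = A Q^k + Q^{-k}`. -/
def node (A Q : L) (k : ℕ) : L := A * Q ^ k + (Q ^ k)⁻¹

lemma node_sub (A : L) {Q : L} (hQ : Q ≠ 0) (k j : ℕ) :
    node A Q k - node A Q j = ((Q ^ k)⁻¹ - (Q ^ j)⁻¹) * (1 - A * Q ^ (j + k)) := by
  unfold node
  have h1 : Q ^ k ≠ 0 := pow_ne_zero _ hQ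
  have h2 : Q ^ j ≠ 0 := pow_ne_zero _ hQ
  rw [pow_add]
  field_simp
  ring

lemma node_injOn {A Q : L} (hQ0 : Q ≠ 0) (hQ : ∀ j : ℕ, 0 < j → Q ^ j ≠ 1)
    (hA : ∀ j : ℕ, A * Q ^ j ≠ 1) : Function.Injective (node A Q) := by
  intro k j h
  have h1 := node_sub A hQ0 k j
  rw [h, sub_self] at h1
  rcases mul_eq_zero.mp h1.symm with h2 | h2
  · have h3 : Q ^ k = Q ^ j := by
      have := sub_eq_zero.mp h2
      exact inv_injective this
    rcases lt_trichotomy k j with hlt | heq | hgt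
    · exfalso
      apply hQ (j - k) (by omega)
      have : Q ^ j = Q ^ k * Q ^ (j - k) := by rw [← pow_add]; congr 1; omega
      rw [this] at h3
      have hk : Q ^ k ≠ 0 := pow_ne_zero _ hQ0
      have h4 : Q ^ k * (Q ^ (j - k) - 1) = 0 := by linear_combination -h3
      rcases mul_eq_zero.mp h4 with h5 | h5
      · exact absurd h5 hk
      · linear_combination h5
    · exact heq
    · exfalso
      apply hQ (k - j) (by omega)
      have : Q ^ k = Q ^ j * Q ^ (k - j) := by rw [← pow_add]; congr 1; omega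
      rw [this] at h3
      have hk : Q ^ j ≠ 0 := pow_ne_zero _ hQ0
      have h4 : Q ^ j * (Q ^ (k - j) - 1) = 0 := by linear_combination h3
      rcases mul_eq_zero.mp h4 with h5 | h5
      · exact absurd h5 hk
      · linear_combination h5
  · exfalso
    apply hA (j + k)
    linear_combination -h2

/-- product over `j ≠ k` of `Q^{-k} - Q^{-j}`. -/
lemma prod_inv_sub {Q : L} (hQ : Q ≠ 0) (N k : ℕ) (hk : k ≤ N) :
    (∏ j ∈ (range (N + 1)).erase k, ((Q ^ k)⁻¹ - (Q ^ j)⁻¹)) * poch ((Q ^ N)⁻¹) Q k * Q ^ (N * k)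
      = poch Q Q k * ∏ i ∈ range N, (1 - (Q ^ (i + 1))⁻¹) := by
  have hsplit : (range (N + 1)).erase k = range k ∪ (Ico (k + 1) (N + 1)) := by
    ext j
    simp only [mem_erase, mem_range, mem_union, mem_Ico]
    omega
  have hdisj : Disjoint (range k) (Ico (k + 1) (N + 1)) := by
    rw [Finset.disjoint_left]
    intro j hj
    simp only [mem_range, mem_Ico] at *
    omega
  rw [hsplit, prod_union hdisj]
  -- first part
  have h1 : ∏ j ∈ range k, ((Q ^ k)⁻¹ - (Q ^ j)⁻¹) = ((Q ^ (k * k))⁻¹) * poch Q Q k := by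
    unfold poch
    rw [← prod_range_reflect (fun j => (1 - Q * Q ^ j))]
    have : (Q ^ (k * k))⁻¹ = ∏ j ∈ range k, (Q ^ k)⁻¹ := by
      rw [prod_const, card_range, inv_pow, pow_mul]
    rw [this, ← prod_mul_distrib]
    apply prod_congr rfl
    intro j hj
    rw [mem_range] at hj
    have e1 : Q ^ k = Q * Q ^ (k - 1 - j) * Q ^ j := by
      rw [← pow_succ', ← pow_add]; congr 1; omega
    have hk0 : Q ^ k ≠ 0 := pow_ne_zero _ hQ
    have hj0 : Q ^ j ≠ 0 := pow_ne_zero _ hQ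
    field_simp
    linear_combination -e1
  -- second part
  have h2 : ∏ j ∈ Ico (k + 1) (N + 1), ((Q ^ k)⁻¹ - (Q ^ j)⁻¹)
      = (Q ^ (k * (N - k)))⁻¹ * ∏ i ∈ range (N - k), (1 - (Q ^ (i + 1))⁻¹) := by
    rw [prod_Ico_eq_prod_range]
    have hNk : N + 1 - (k + 1) = N - k := by omega
    rw [hNk]
    have : (Q ^ (k * (N - k)))⁻¹ = ∏ j ∈ range (N - k), (Q ^ k)⁻¹ := by
      rw [prod_const, card_range, inv_pow, pow_mul]
    rw [this, ← prod_mul_distrib]
    apply prod_congr rfl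
    intro j hj
    have e1 : Q ^ (k + 1 + j) = Q ^ k * Q ^ (j + 1) := by
      rw [← pow_add]; congr 1; omega
    rw [e1]
    have hk0 : Q ^ k ≠ 0 := pow_ne_zero _ hQ
    have hj0 : Q ^ (j + 1) ≠ 0 := pow_ne_zero _ hQ
    field_simp
  have h3 : (∏ i ∈ range (N - k), (1 - (Q ^ (i + 1))⁻¹)) * poch ((Q ^ N)⁻¹) Q k
      = ∏ i ∈ range N, (1 - (Q ^ (i + 1))⁻¹) := by
    unfold poch
    rw [← prod_range_reflect (fun j => (1 - (Q ^ N)⁻¹ * Q ^ j))]
    have hN : N = (N - k) + k := by omega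
    conv_rhs => rw [hN, prod_range_add]
    congr 1
    apply prod_congr rfl
    intro j hj
    rw [mem_range] at hj
    have e1 : Q ^ N = Q ^ (N - k + j + 1) * Q ^ (k - 1 - j) := by
      rw [← pow_add]; congr 1; omega
    rw [e1]
    have hk0 : Q ^ (N - k + j + 1) ≠ 0 := pow_ne_zero _ hQ
    have hj0 : Q ^ (k - 1 - j) ≠ 0 := pow_ne_zero _ hQ
    field_simp
  rw [h1, h2]
  have h4 : Q ^ (N * k) = Q ^ (k * k) * Q ^ (k * (N - k)) := by
    rw [← pow_add]
    congr 1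
    have : N = k + (N - k) := by omega
    nlinarith [this]
  rw [h4]
  have hk0 : Q ^ (k * k) ≠ 0 := pow_ne_zero _ hQ
  have hj0 : Q ^ (k * (N - k)) ≠ 0 := pow_ne_zero _ hQ
  calc _ = (Q ^ (k * k))⁻¹ * Q ^ (k * k) * ((Q ^ (k * (N - k)))⁻¹ * Q ^ (k * (N - k))) *
        poch Q Q k * ((∏ i ∈ range (N - k), (1 - (Q ^ (i + 1))⁻¹)) * poch ((Q ^ N)⁻¹) Q k) := by ring
    _ = _ := by rw [inv_mul_cancel₀ hk0, inv_mul_cancel₀ hj0, h3]; ring

lemma prod_one_sub (A : L) (Q : L) (N k : ℕ) (hk : k ≤ N) :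
    (∏ j ∈ (range (N + 1)).erase k, (1 - A * Q ^ (j + k))) * (1 - A * Q ^ (2 * k)) * poch A Q k
      = poch A Q (N + 1) * poch (A * Q ^ (N + 1)) Q k := by
  have hmem : k ∈ range (N + 1) := by rw [mem_range]; omega
  have h1 : (∏ j ∈ (range (N + 1)).erase k, (1 - A * Q ^ (j + k))) * (1 - A * Q ^ (2 * k))
      = poch (A * Q ^ k) Q (N + 1) := by
    unfold poch
    rw [two_mul, prod_erase_mul (range (N + 1)) (fun j => (1 - A * Q ^ (j + k))) hmem]
    apply prod_congr rfl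
    intro j _
    rw [pow_add]; ring
  rw [h1, poch_swap]
  ring

/-- The basic vanishing sum: a very-well-poised sum against a polynomial in the nodes. -/
lemma wp_zero {A Q : L} (hQ0 : Q ≠ 0) (hQ : ∀ j : ℕ, 0 < j → Q ^ j ≠ 1)
    (hA : ∀ j : ℕ, A * Q ^ j ≠ 1) (N : ℕ) (g : L[X]) (hg : g.natDegree < N) :
    ∑ k ∈ range (N + 1), Q ^ (N * k) * (1 - A * Q ^ (2 * k)) * (poch A Q k / poch Q Q k) *
      (poch ((Q ^ N)⁻¹) Q k / poch (A * Q ^ (N + 1)) Q k) * g.eval (node A Q k) = 0 := by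
  have hinj := node_injOn hQ0 hQ hA
  have hdeg : g.degree < #(range (N + 1)) := by
    rw [card_range]
    refine lt_of_le_of_lt degree_le_natDegree ?_
    exact_mod_cast (by omega : g.natDegree < N + 1)
  have hsum := Lagrange.coeff_eq_sum (s := range (N + 1)) (v := node A Q) hinj.injOn hdeg
  rw [card_range, Nat.add_sub_cancel, coeff_eq_zero_of_natDegree_lt hg] at hsum
  set C0 : L := poch A Q (N + 1) * ∏ i ∈ range N, (1 - (Q ^ (i + 1))⁻¹) with hC0
  have hterm : ∀ k ∈ range (N + 1), Q ^ (N * k) * (1 - A * Q ^ (2 * k)) *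
      (poch A Q k / poch Q Q k) *
      (poch ((Q ^ N)⁻¹) Q k / poch (A * Q ^ (N + 1)) Q k) * g.eval (node A Q k)
      = C0 * (g.eval (node A Q k) / ∏ j ∈ (range (N + 1)).erase k, (node A Q k - node A Q j)) := by
    intro k hk
    have hk' : k ≤ N := by rw [mem_range] at hk; omega
    have e1 : ∏ j ∈ (range (N + 1)).erase k, (node A Q k - node A Q j)
        = (∏ j ∈ (range (N + 1)).erase k, ((Q ^ k)⁻¹ - (Q ^ j)⁻¹)) *
          ∏ j ∈ (range (N + 1)).erase k, (1 - A * Q ^ (j + k)) := by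
      rw [← prod_mul_distrib]
      apply prod_congr rfl
      intro j _
      exact node_sub A hQ0 k j
    have e2 := prod_inv_sub hQ0 N k hk'
    have e3 := prod_one_sub A Q N k hk'
    have hne : (∏ j ∈ (range (N + 1)).erase k, (node A Q k - node A Q j)) ≠ 0 := by
      rw [prod_ne_zero_iff]
      intro j hj h0
      have := hinj (sub_eq_zero.mp h0)
      rw [mem_erase] at hj
      exact hj.1 this.symm
    have hQk : poch Q Q k ≠ 0 := by
      apply poch_ne_zero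
      intro j
      rw [← pow_succ']
      exact hQ (j + 1) (by omega)
    have hAk : poch (A * Q ^ (N + 1)) Q k ≠ 0 := by
      apply poch_ne_zero
      intro j
      rw [mul_assoc, ← pow_add]
      exact hA _
    rw [e1] at hne ⊢
    set P1 := ∏ j ∈ (range (N + 1)).erase k, ((Q ^ k)⁻¹ - (Q ^ j)⁻¹)
    set P2 := ∏ j ∈ (range (N + 1)).erase k, (1 - A * Q ^ (j + k))
    set P3 := ∏ i ∈ range N, (1 - (Q ^ (i + 1))⁻¹)
    set G := eval (node A Q k) g
    have key : Q ^ (N * k) * (1 - A * Q ^ (2 * k)) * (poch A Q k) * (poch ((Q ^ N)⁻¹) Q k) *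
        (P1 * P2) = C0 * (poch Q Q k * poch (A * Q ^ (N + 1)) Q k) := by
      rw [hC0]
      linear_combination (P2 * (1 - A * Q ^ (2 * k)) * poch A Q k) * e2 + (poch Q Q k * P3) * e3
    have hP1 : P1 ≠ 0 := left_ne_zero_of_mul hne
    have hP2 : P2 ≠ 0 := right_ne_zero_of_mul hne
    clear e2
    generalize poch ((Q ^ N)⁻¹) Q k = R at key ⊢
    field_simp
    linear_combination G * key
  rw [sum_congr rfl hterm, ← mul_sum, ← hsum, mul_zero]

/-- `phi_k(u) = (A u;Q)_k / (Q/u;Q)_k`. -/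
def phi (A Q u : L) (k : ℕ) : L := poch (A * u) Q k / poch (Q / u) Q k

/-- polynomial attached to a pair `(u, Q^r/(A u))`. -/
noncomputable def pairPoly (A Q u : L) (m : ℕ) : L[X] :=
  ∏ j ∈ range m, (X - C (A * u * (Q ^ (j + 1))⁻¹ + Q ^ (j + 1) / u))

lemma natDegree_pairPoly (A Q u : L) (m : ℕ) : (pairPoly A Q u m).natDegree ≤ m := by
  unfold pairPoly
  refine (natDegree_prod_le _ _).trans ?_
  refine (sum_le_sum (fun j _ => (natDegree_X_sub_C_le _))).trans ?_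
  simp

lemma pair_eq {A Q u : L} (hQ0 : Q ≠ 0) (hA0 : A ≠ 0) (hu0 : u ≠ 0) (m : ℕ)
    (h1 : ∀ j : ℕ, Q ^ (j + 1) ≠ u) (h2 : ∀ j : ℕ, Q ^ (j + 1) ≠ Q ^ (m + 1) / (A * u)) :
    ∃ c : L, ∀ k : ℕ, phi A Q u k * phi A Q (Q ^ (m + 1) / (A * u)) k
      = c * Q ^ (m * k) * (pairPoly A Q u m).eval (node A Q k) := by
  have n1 : ∀ k, poch (Q / u) Q k ≠ 0 := by
    intro k
    apply poch_ne_zero
    intro j h
    apply h1 j
    rw [pow_succ]
    field_simp at h
    linear_combination h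
  have e2 : Q / (Q ^ (m + 1) / (A * u)) = A * u * (Q ^ m)⁻¹ := by
    rw [pow_succ]
    field_simp
  have n2 : ∀ k, poch (A * u * (Q ^ m)⁻¹) Q k ≠ 0 := by
    intro k
    apply poch_ne_zero
    intro j h
    apply h2 j
    rw [pow_succ, pow_succ]
    have hQm : Q ^ m ≠ 0 := pow_ne_zero _ hQ0
    field_simp at h ⊢
    linear_combination h
  refine ⟨(poch (A * u * (Q ^ m)⁻¹) Q m)⁻¹ * (poch (Q / u) Q m)⁻¹, ?_⟩
  intro k
  have hQm : Q ^ m ≠ 0 := pow_ne_zero _ hQ0
  have q1 := poch_quot (A * u * (Q ^ m)⁻¹) Q m k (n2 k) (n2 m)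
  have q2 := poch_quot (Q / u) Q m k (n1 k) (n1 m)
  have a1 : A * u * (Q ^ m)⁻¹ * Q ^ m = A * u := by field_simp
  have a2 : Q / u * Q ^ m = A * (Q ^ (m + 1) / (A * u)) := by
    rw [pow_succ]
    field_simp
  rw [a1] at q1
  rw [a2] at q2
  have hprod : poch (A * u * (Q ^ m)⁻¹ * Q ^ k) Q m * poch (Q / u * Q ^ k) Q m
      = Q ^ (m * k) * (pairPoly A Q u m).eval (node A Q k) := by
    unfold poch pairPoly
    rw [eval_prod]
    rw [← prod_range_reflect (fun j => (1 - A * u * (Q ^ m)⁻¹ * Q ^ k * Q ^ j)), ← prod_mul_distrib]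
    have : Q ^ (m * k) = ∏ j ∈ range m, Q ^ k := by
      rw [prod_const, card_range, mul_comm, pow_mul]
    rw [this, ← prod_mul_distrib]
    apply prod_congr rfl
    intro j hj
    rw [mem_range] at hj
    simp only [eval_sub, eval_X, eval_C]
    unfold node
    have e1 : Q ^ m = Q ^ (m - 1 - j) * Q ^ (j + 1) := by
      rw [← pow_add]; congr 1; omega
    rw [e1]
    have hk0 : Q ^ k ≠ 0 := pow_ne_zero _ hQ0
    have hj0 : Q ^ (m - 1 - j) ≠ 0 := pow_ne_zero _ hQ0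
    rw [pow_succ]
    have hj1 : Q ^ j ≠ 0 := pow_ne_zero _ hQ0
    field_simp
    ring
  unfold phi
  rw [e2]
  calc poch (A * u) Q k / poch (Q / u) Q k *
      (poch (A * (Q ^ (m + 1) / (A * u))) Q k / poch (A * u * (Q ^ m)⁻¹) Q k)
      = (poch (A * u) Q k / poch (A * u * (Q ^ m)⁻¹) Q k) *
        (poch (A * (Q ^ (m + 1) / (A * u))) Q k / poch (Q / u) Q k) := by ring
    _ = (poch (A * u * (Q ^ m)⁻¹) Q m)⁻¹ * (poch (Q / u) Q m)⁻¹ *
        (poch (A * u * (Q ^ m)⁻¹ * Q ^ k) Q m * poch (Q / u * Q ^ k) Q m) := by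
        rw [q1, q2]; ring
    _ = _ := by rw [hprod]; ring

/-- polynomial attached to the single element `v` with `A v^2 = Q^(2m+1)`. -/
noncomputable def singlePoly (Q v : L) (m : ℕ) : L[X] :=
  ∏ j ∈ range m, (X - C ((Q ^ (j + 1) + Q ^ (2 * m - j)) / v))

lemma natDegree_singlePoly (Q v : L) (m : ℕ) : (singlePoly Q v m).natDegree ≤ m := by
  unfold singlePoly
  refine (natDegree_prod_le _ _).trans ?_
  refine (sum_le_sum (fun j _ => (natDegree_X_sub_C_le _))).trans ?_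
  simp

lemma prod_range_two_mul (f : ℕ → L) (m : ℕ) :
    ∏ j ∈ range (2 * m), f j = ∏ j ∈ range m, (f j * f (2 * m - 1 - j)) := by
  rw [two_mul, prod_range_add, prod_mul_distrib]
  congr 1
  rw [← prod_range_reflect (fun x => f (m + x))]
  apply prod_congr rfl
  intro j hj
  rw [mem_range] at hj
  congr 1
  omega

lemma single_eq {A Q v : L} (hQ0 : Q ≠ 0) (hv0 : v ≠ 0) (m : ℕ)
    (hv : A * v ^ 2 = Q ^ (2 * m + 1)) (h1 : ∀ j : ℕ, Q ^ (j + 1) ≠ v) :
    ∃ c : L, ∀ k : ℕ, phi A Q v k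
      = c * Q ^ (m * k) * (singlePoly Q v m).eval (node A Q k) := by
  have n1 : ∀ k, poch (Q / v) Q k ≠ 0 := by
    intro k
    apply poch_ne_zero
    intro j h
    apply h1 j
    rw [pow_succ]
    field_simp at h
    linear_combination h
  refine ⟨(poch (Q / v) Q (2 * m))⁻¹, ?_⟩
  intro k
  have q2 := poch_quot (Q / v) Q (2 * m) k (n1 k) (n1 (2 * m))
  have a2 : Q / v * Q ^ (2 * m) = A * v := by
    rw [pow_succ] at hv
    field_simp
    linear_combination -hv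
  rw [a2] at q2
  unfold phi
  rw [q2]
  have hprod : poch (Q / v * Q ^ k) Q (2 * m)
      = Q ^ (m * k) * (singlePoly Q v m).eval (node A Q k) := by
    unfold poch singlePoly
    rw [eval_prod, prod_range_two_mul]
    have : Q ^ (m * k) = ∏ j ∈ range m, Q ^ k := by
      rw [prod_const, card_range, mul_comm, pow_mul]
    rw [this, ← prod_mul_distrib]
    apply prod_congr rfl
    intro j hj
    rw [mem_range] at hj
    simp only [eval_sub, eval_X, eval_C]
    unfold node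
    have e1 : Q ^ (2 * m - j) = Q ^ (2 * m - 1 - j) * Q := by
      rw [← pow_succ]; congr 1; omega
    have e2 : Q ^ (2 * m + 1) = Q ^ (2 * m - 1 - j) * Q ^ j * Q ^ 2 := by
      rw [← pow_add, ← pow_add]; congr 1; omega
    rw [e2] at hv
    rw [e1, pow_succ]
    have hk0 : Q ^ k ≠ 0 := pow_ne_zero _ hQ0
    field_simp
    linear_combination (-(Q ^ k) ^ 2) * hv
  rw [hprod]
  ring

/-- The exact zeros of the deformation. -/
lemma exact_zero {A Q v : L} (hQ0 : Q ≠ 0) (hA0 : A ≠ 0) (hv0 : v ≠ 0)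
    (hQ : ∀ j : ℕ, 0 < j → Q ^ j ≠ 1) (hA : ∀ j : ℕ, A * Q ^ j ≠ 1)
    (N e m r' : ℕ) (he : 0 < e) (hN : e * r' + m + (e + 1) = N)
    (hv : A * v ^ 2 = Q ^ (2 * m + 1)) (h1 : ∀ j : ℕ, Q ^ (j + 1) ≠ v)
    (u : ℕ → L) (hu0 : ∀ i, u i ≠ 0) (hu1 : ∀ i j : ℕ, Q ^ (j + 1) ≠ u i)
    (hu2 : ∀ i j : ℕ, Q ^ (j + 1) ≠ Q ^ (r' + 1) / (A * u i)) :
    ∑ k ∈ range (N + 1), Q ^ ((e + 1) * k) * (1 - A * Q ^ (2 * k)) * phi A Q 1 k *
      phi A Q ((Q ^ N)⁻¹ / A) k * phi A Q v k *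
      ∏ i ∈ range e, (phi A Q (u i) k * phi A Q (Q ^ (r' + 1) / (A * u i)) k) = 0 := by
  obtain ⟨c1, hc1⟩ := single_eq hQ0 hv0 m hv h1
  have hp : ∀ i, ∃ c : L, ∀ k : ℕ, phi A Q (u i) k * phi A Q (Q ^ (r' + 1) / (A * u i)) k
      = c * Q ^ (r' * k) * (pairPoly A Q (u i) r').eval (node A Q k) := fun i =>
    pair_eq hQ0 hA0 (hu0 i) r' (hu1 i) (hu2 i)
  choose c2 hc2 using hp
  set g : L[X] := singlePoly Q v m * ∏ i ∈ range e, pairPoly A Q (u i) r' with hg
  have hgdeg : g.natDegree < N := by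
    have h3 : (∏ i ∈ range e, pairPoly A Q (u i) r').natDegree ≤ e * r' := by
      refine (natDegree_prod_le _ _).trans ?_
      refine (sum_le_sum (fun i _ => natDegree_pairPoly A Q (u i) r')).trans ?_
      simp
    have h4 := natDegree_singlePoly Q v m
    have h5 : g.natDegree ≤ _ := natDegree_mul_le
    omega
  have h0 := wp_zero hQ0 hQ hA N g hgdeg
  have hterm : ∀ k ∈ range (N + 1), Q ^ ((e + 1) * k) * (1 - A * Q ^ (2 * k)) * phi A Q 1 k *
      phi A Q ((Q ^ N)⁻¹ / A) k * phi A Q v k *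
      ∏ i ∈ range e, (phi A Q (u i) k * phi A Q (Q ^ (r' + 1) / (A * u i)) k)
      = (c1 * ∏ i ∈ range e, c2 i) * (Q ^ (N * k) * (1 - A * Q ^ (2 * k)) *
        (poch A Q k / poch Q Q k) *
      (poch ((Q ^ N)⁻¹) Q k / poch (A * Q ^ (N + 1)) Q k) * g.eval (node A Q k)) := by
    intro k _
    have e1 : phi A Q 1 k = poch A Q k / poch Q Q k := by
      unfold phi; rw [mul_one, div_one]
    have e2 : phi A Q ((Q ^ N)⁻¹ / A) k = poch ((Q ^ N)⁻¹) Q k / poch (A * Q ^ (N + 1)) Q k := by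
      unfold phi
      have b1 : A * ((Q ^ N)⁻¹ / A) = (Q ^ N)⁻¹ := by field_simp
      have b2 : Q / ((Q ^ N)⁻¹ / A) = A * Q ^ (N + 1) := by
        have : Q ^ N ≠ 0 := pow_ne_zero _ hQ0
        rw [pow_succ]; field_simp
      rw [b1, b2]
    have e3 : ∏ i ∈ range e, (phi A Q (u i) k * phi A Q (Q ^ (r' + 1) / (A * u i)) k)
        = (∏ i ∈ range e, c2 i) * Q ^ (e * r' * k) *
          (∏ i ∈ range e, pairPoly A Q (u i) r').eval (node A Q k) := by
      rw [eval_prod]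
      have : Q ^ (e * r' * k) = ∏ i ∈ range e, Q ^ (r' * k) := by
        rw [prod_const, card_range, ← pow_mul]; congr 1; ring
      rw [this, ← prod_mul_distrib, ← prod_mul_distrib]
      apply prod_congr rfl
      intro i _
      exact hc2 i k
    rw [e1, e2, e3, hc1 k, hg, eval_mul]
    have e4 : Q ^ (N * k) = Q ^ ((e + 1) * k) * Q ^ (m * k) * Q ^ (e * r' * k) := by
      rw [← pow_add, ← pow_add]
      congr 1
      rw [← hN]; ring
    rw [e4]
    ring
  rw [sum_congr rfl hterm, ← mul_sum, h0, mul_zero]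

end Pool.Agent.Work.MP_dcacaa_nt
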