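import Mathlib
import Pool.Agent.Work.MP_dcacaa_nt.Zero
import Pool.Agent.Work.MP_dcacaa_nt.Expand
import Pool.Agent.Work.MP_dcacaa_nt.Residue

set_option autoImplicit false

namespace Pool.Agent.Work.MP_dcacaa_nt

open Finset

local instance : Inhabited ℂ := ⟨0⟩

/-- the power series `1 + X + X^2/2 + X^3/6` -/
noncomputable def EE : PowerSeries ℂ := Ex PowerSeries.X (PowerSeries.C (1 / 6 : ℂ)) 1 0 0

/-- the power series `q = z * EE` -/
noncomputable def qs (z : ℂ) : PowerSeries ℂ := PowerSeries.C z * EE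

lemma cc_EE : PowerSeries.constantCoeff EE = 1 := by
  simp [EE, Ex]

lemma cc_qs (z : ℂ) : PowerSeries.constantCoeff (qs z) = z := by
  simp [qs, cc_EE]

lemma coeff_one_EE : PowerSeries.coeff 1 EE = 1 := by
  unfold EE Ex
  simp [PowerSeries.coeff_X_pow_mul', PowerSeries.coeff_X, PowerSeries.coeff_one]

lemma coeff_one_qs_pow (z : ℂ) (j : ℕ) : PowerSeries.coeff 1 ((qs z) ^ j) = j * z ^ j := by
  unfold qs
  rw [mul_pow, ← map_pow, PowerSeries.coeff_C_mul, PowerSeries.coeff_one_pow, coeff_one_EE]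
  rw [cc_EE]
  ring

lemma qs_pow_ne_one {z : ℂ} (hz : z ≠ 0) {j : ℕ} (hj : 0 < j) : (qs z) ^ j ≠ 1 := by
  intro h
  have h1 := coeff_one_qs_pow z j
  rw [h, PowerSeries.coeff_one] at h1
  simp at h1
  rcases h1 with h1 | h1
  · omega
  · exact hz h1.1

lemma qs_isUnit {z : ℂ} (hz : z ≠ 0) : IsUnit (qs z) := by
  rw [PowerSeries.isUnit_iff_constantCoeff, cc_qs]
  exact hz.isUnit

/-- `q` as a unit -/
noncomputable def qU (z : ℂ) (hz : z ≠ 0) : (PowerSeries ℂ)ˣ := (qs_isUnit hz).unit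

lemma qU_val (z : ℂ) (hz : z ≠ 0) : ((qU z hz : (PowerSeries ℂ)ˣ) : PowerSeries ℂ) = qs z := by
  simp [qU]

/-- `q ^ m` for an integer `m` -/
noncomputable def qz (z : ℂ) (hz : z ≠ 0) (m : ℤ) : PowerSeries ℂ :=
  (((qU z hz) ^ m : (PowerSeries ℂ)ˣ) : PowerSeries ℂ)

lemma qz_add (z : ℂ) (hz : z ≠ 0) (m m' : ℤ) : qz z hz (m + m') = qz z hz m * qz z hz m' := by
  unfold qz
  rw [zpow_add, Units.val_mul]

lemma qz_zero (z : ℂ) (hz : z ≠ 0) : qz z hz 0 = 1 := by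
  simp [qz]

lemma qz_natCast (z : ℂ) (hz : z ≠ 0) (m : ℕ) : qz z hz m = (qs z) ^ m := by
  simp [qz, qU_val]

lemma cc_qz (z : ℂ) (hz : z ≠ 0) (m : ℤ) : PowerSeries.constantCoeff (qz z hz m) = z ^ m := by
  have h1 : PowerSeries.constantCoeff (qz z hz m) =
      ((Units.map (PowerSeries.constantCoeff : PowerSeries ℂ →+* ℂ).toMonoidHom ((qU z hz) ^ m) : ℂˣ) : ℂ) := rfl
  rw [h1, map_zpow, Units.val_zpow_eq_zpow_val]
  congr 1
  change PowerSeries.constantCoeff ((qU z hz : (PowerSeries ℂ)ˣ) : PowerSeries ℂ) = z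
  rw [qU_val, cc_qs]

/-- embedding in the fraction field -/
noncomputable abbrev LL := FractionRing (PowerSeries ℂ)

noncomputable abbrev io : PowerSeries ℂ →+* LL := algebraMap (PowerSeries ℂ) LL

lemma io_inj : Function.Injective io := IsFractionRing.injective (PowerSeries ℂ) LL

lemma io_qz (z : ℂ) (hz : z ≠ 0) (m : ℤ) : io (qz z hz m) = (io (qs z)) ^ m := by
  have h1 : io (qz z hz m) =
      ((Units.map (io).toMonoidHom ((qU z hz) ^ m) : LLˣ) : LL) := rfl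
  rw [h1, map_zpow, Units.val_zpow_eq_zpow_val]
  have h2 : ((Units.map (io).toMonoidHom (qU z hz) : LLˣ) : LL) = io (qs z) := by
    change io ((qU z hz : (PowerSeries ℂ)ˣ) : PowerSeries ℂ) = io (qs z)
    rw [qU_val]
  rw [h2]

lemma io_qs_ne_zero {z : ℂ} (hz : z ≠ 0) : io (qs z) ≠ 0 := by
  intro h
  have : qs z = 0 := io_inj (by rw [h, map_zero])
  have h2 := cc_qs z
  rw [this, map_zero] at h2
  exact hz h2.symm

lemma io_zpow_ne_one {z : ℂ} (hz : z ≠ 0) {m : ℤ} (hm : m ≠ 0) : (io (qs z)) ^ m ≠ 1 := by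
  have key : ∀ j : ℕ, 0 < j → (io (qs z)) ^ j ≠ 1 := by
    intro j hj h
    rw [← map_pow] at h
    exact qs_pow_ne_one hz hj (io_inj (by rw [h, map_one]))
  rcases Int.lt_or_lt_of_ne hm with h | h
  · obtain ⟨j, hj⟩ := Int.eq_ofNat_of_zero_le (show (0 : ℤ) ≤ -m by omega)
    have hm' : m = -(j : ℤ) := by omega
    rw [hm', zpow_neg, zpow_natCast]
    intro h3
    exact key j (by omega) (inv_eq_one.mp h3)
  · obtain ⟨j, hj⟩ := Int.eq_ofNat_of_zero_le (show (0 : ℤ) ≤ m by omega)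
    rw [hj, zpow_natCast]
    exact key j (by omega)

lemma io_inv {f : PowerSeries ℂ} (hf : PowerSeries.constantCoeff f ≠ 0) : io f⁻¹ = (io f)⁻¹ := by
  have h1 := PowerSeries.mul_inv_cancel f hf
  have h2 : io f * io f⁻¹ = 1 := by rw [← map_mul, h1, map_one]
  exact eq_inv_of_mul_eq_one_right h2

/-- the series version of `phi_k(mu)` -/
noncomputable def PR (z : ℂ) (hz : z ≠ 0) (d n : ℕ) (k : ℕ) (m : ℤ) : PowerSeries ℂ :=
  ∏ j ∈ range k, ((1 - qz z hz (d * j - 1 + n * m)) * (1 - qz z hz (d * (j + 1) - n * m))⁻¹)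

lemma cc_den {z : ℂ} (hz : z ≠ 0) {d n : ℕ} (hzn : IsPrimitiveRoot z n) (hcop : Nat.Coprime d n)
    (j : ℕ) (hj : j + 1 < n) (m : ℤ) :
    PowerSeries.constantCoeff (1 - qz z hz (d * (j + 1) - n * m)) ≠ 0 := by
  rw [map_sub, map_one, cc_qz]
  intro h
  have h1 : z ^ ((d : ℤ) * (j + 1) - n * m) = 1 := by linear_combination -h
  rw [hzn.zpow_eq_one_iff_dvd] at h1
  have h2 : (n : ℤ) ∣ d * (j + 1) := by
    have : (d : ℤ) * (j + 1) = (d * (j + 1) - n * m) + n * m := by ring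
    rw [this]
    exact dvd_add h1 (dvd_mul_right _ _)
  have h3 : n ∣ d * (j + 1) := by exact_mod_cast h2
  have h4 : n ∣ j + 1 := (Nat.Coprime.dvd_mul_left hcop.symm).mp h3
  exact absurd (Nat.le_of_dvd (by omega) h4) (by omega)

lemma io_PR {z : ℂ} (hz : z ≠ 0) {d n : ℕ} (hzn : IsPrimitiveRoot z n) (hcop : Nat.Coprime d n)
    (k : ℕ) (hk : k < n) (m : ℤ) :
    io (PR z hz d n k m) = phi ((io (qs z))⁻¹) ((io (qs z)) ^ d) ((io (qs z)) ^ ((n : ℤ) * m)) k := by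
  have hq0 := io_qs_ne_zero hz
  unfold PR phi poch
  rw [map_prod, ← prod_div_distrib]
  apply prod_congr rfl
  intro j hj
  rw [mem_range] at hj
  rw [map_mul, io_inv (cc_den hz hzn hcop j (by omega) m), map_sub, map_sub, map_one, io_qz, io_qz,
    div_eq_mul_inv]
  congr 2
  · congr 1
    rw [← zpow_neg_one, ← zpow_natCast (io (qs z)) d, ← zpow_natCast, ← zpow_mul, ← zpow_add₀ hq0,
      ← zpow_add₀ hq0]
    congr 1
    ring
  · congr 1
    rw [div_eq_mul_inv, ← zpow_neg, ← zpow_natCast (io (qs z)) d, ← zpow_natCast, ← zpow_mul,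
      ← zpow_add₀ hq0, ← zpow_add₀ hq0]
    congr 1
    ring

/-- Exact zeros in power series form. -/
lemma PR_zero {z : ℂ} (hz : z ≠ 0) {d n e r N m : ℕ} {σ : ℕ} {s : ℕ}
    (hzn : IsPrimitiveRoot z n) (hcop : Nat.Coprime d n) (he : 1 ≤ e)
    (hdn : σ * n = 1 + d * r) (hd5 : 5 ≤ d)
    (hNr : N + r = n) (hr : 1 ≤ r) (hσ : σ = 1 ∨ σ = 2) (hs0 : 0 < s) (hsd : s < d)
    (hs : 2 * s * n = 1 + d * (2 * m + 1)) (hN : (e - 1) * (r - 1) + m + e = N)
    (u : ℕ → ℤ) (hu : ∀ i, u i = 1 ∨ u i = 2) (he2 : 2 ≤ e) :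
    ∑ k ∈ range (N + 1), (qz z hz (d * (e * k)) * (1 - qz z hz (2 * d * k - 1))) *
      (PR z hz d n k 0 * PR z hz d n k (σ - d) * PR z hz d n k s *
        ∏ i ∈ range (e - 1), (PR z hz d n k (u i) * PR z hz d n k (σ - u i))) = 0 := by
  apply io_inj
  rw [map_zero, map_sum]
  have hq0 : io (qs z) ≠ 0 := io_qs_ne_zero hz
  have hq1 : ∀ {t : ℤ}, t ≠ 0 → (io (qs z)) ^ t ≠ 1 := fun ht => io_zpow_ne_one hz ht
  have hPR := fun k hk t => io_PR hz hzn hcop (k := k) hk t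
  have hqz := fun t => io_qz z hz t
  generalize io (qs z) = q at hq0 hq1 hPR hqz
  have hd0 : 0 < d := by omega
  obtain ⟨r', rfl⟩ : ∃ r', r = r' + 1 := ⟨r - 1, by omega⟩
  obtain ⟨e', rfl⟩ : ∃ e', e = e' + 1 := ⟨e - 1, by omega⟩
  have hr' : r' + 1 - 1 = r' := by omega
  have he' : e' + 1 - 1 = e' := by omega
  rw [hr', he'] at hN
  rw [he']
  -- coprimality facts
  have hcopz : IsCoprime (d : ℤ) (n : ℤ) := Nat.isCoprime_iff_coprime.mpr hcop
  have hndvd : ∀ (j : ℤ) (t : ℤ), 0 < t → t < d → (d : ℤ) * j ≠ n * t := by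
    intro j t ht htd h
    have h1 : (d : ℤ) ∣ n * t := ⟨j, h.symm⟩
    have h2 : (d : ℤ) ∣ t := hcopz.dvd_of_dvd_mul_left h1
    exact absurd (Int.le_of_dvd ht h2) (by omega)
  have hinj : ∀ {a b : ℤ}, a ≠ b → q ^ a ≠ q ^ b := by
    intro a b hab h
    apply hq1 (sub_ne_zero.mpr hab)
    rw [zpow_sub₀ hq0, h, div_self (zpow_ne_zero _ hq0)]
  have hdnz : (σ : ℤ) * n = 1 + d * (r' + 1) := by exact_mod_cast hdn
  have hNrz : (N : ℤ) + (r' + 1) = n := by exact_mod_cast hNr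
  have hsz : 2 * (s : ℤ) * n = 1 + d * (2 * m + 1) := by exact_mod_cast hs
  have hQpow : ∀ j : ℕ, (q ^ d) ^ j = q ^ ((d : ℤ) * j) := by
    intro j
    rw [← pow_mul]
    exact_mod_cast rfl
  have hpair : ∀ t : ℤ, (q ^ d) ^ (r' + 1) / (q⁻¹ * q ^ ((n : ℤ) * t)) = q ^ ((n : ℤ) * (σ - t)) := by
    intro t
    rw [hQpow, ← zpow_neg_one, ← zpow_add₀ hq0, ← zpow_sub₀ hq0]
    congr 1
    push_cast
    linear_combination -hdnz
  have h0 := exact_zero (A := q⁻¹) (Q := q ^ d) (v := q ^ ((n : ℤ) * s)) (pow_ne_zero _ hq0)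
    (inv_ne_zero hq0) (zpow_ne_zero _ hq0)
    (by
      intro j hj
      rw [hQpow]
      apply hq1
      positivity)
    (by
      intro j
      rw [hQpow, ← zpow_neg_one, ← zpow_add₀ hq0]
      apply hq1
      intro h
      have h1 : (d : ℤ) * j = 1 := by linear_combination h
      have h2 : d * j = 1 := by exact_mod_cast h1
      have h3 : d = 1 := Nat.eq_one_of_mul_eq_one_right h2
      omega)
    N e' m r' (by omega) hN
    (by
      rw [hQpow, ← zpow_neg_one, ← zpow_natCast (q ^ ((n : ℤ) * s)) 2, ← zpow_mul, ← zpow_add₀ hq0]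
      congr 1
      push_cast
      linear_combination hsz)
    (by
      intro j
      rw [hQpow]
      apply hinj
      exact hndvd _ _ (by exact_mod_cast hs0) (by exact_mod_cast hsd))
    (fun i => q ^ ((n : ℤ) * u i)) (fun i => zpow_ne_zero _ hq0)
    (by
      intro i j
      rw [hQpow]
      apply hinj
      rcases hu i with h | h <;> rw [h]
      · exact hndvd _ _ (by omega) (by omega)
      · exact hndvd _ _ (by omega) (by omega))
    (by
      intro i j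
      rw [hpair (u i), hQpow]
      apply hinj
      by_cases hp : 0 < (σ : ℤ) - u i
      · apply hndvd _ _ hp
        rcases hσ with h | h <;> rcases hu i with h' | h' <;> rw [h, h'] at * <;> push_cast <;> omega
      · have h1 : (n : ℤ) * (σ - u i) ≤ 0 := by
          apply mul_nonpos_of_nonneg_of_nonpos
          · positivity
          · omega
        have h2 : (0 : ℤ) < d * ((j + 1 : ℕ) : ℤ) := by positivity
        omega)
  rw [← h0]
  apply sum_congr rfl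
  intro k hk
  rw [mem_range] at hk
  have hkn : k < n := by omega
  rw [map_mul, map_mul, map_mul, map_mul, map_mul, map_prod, map_sub, map_one, hqz, hqz,
    hPR k hkn, hPR k hkn, hPR k hkn]
  have e1 : ∏ i ∈ range e', io (PR z hz d n k (u i) * PR z hz d n k (σ - u i))
      = ∏ i ∈ range e', (phi q⁻¹ (q ^ d) (q ^ ((n : ℤ) * u i)) k *
        phi q⁻¹ (q ^ d) ((q ^ d) ^ (r' + 1) / (q⁻¹ * q ^ ((n : ℤ) * u i))) k) := by
    apply prod_congr rfl
    intro i _
    rw [map_mul, hPR k hkn, hPR k hkn, hpair]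
  rw [e1]
  have e2 : q ^ ((d : ℤ) * ((e' + 1 : ℕ) * k)) = (q ^ d) ^ ((e' + 1) * k) := by
    rw [hQpow]; push_cast; rfl
  have e3 : q ^ (2 * (d : ℤ) * k - 1) = q⁻¹ * (q ^ d) ^ (2 * k) := by
    rw [hQpow, ← zpow_neg_one, ← zpow_add₀ hq0]; congr 1; push_cast; ring
  have e4 : q ^ ((n : ℤ) * 0) = 1 := by simp
  have e5 : q ^ ((n : ℤ) * (σ - d)) = ((q ^ d) ^ N)⁻¹ / q⁻¹ := by
    rw [hQpow, ← zpow_neg, ← zpow_neg_one, ← zpow_sub₀ hq0]
    congr 1
    linear_combination hdnz + (d : ℤ) * hNrz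
  rw [e2, e3, e4, e5]
  ring

end Pool.Agent.Work.MP_dcacaa_nt
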