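import Mathlib
import Pool.Agent.Work.MP_dcacaa_nt.Series

set_option autoImplicit false

namespace Pool.Agent.Work.MP_dcacaa_nt

open Finset

lemma map_Ex {R S : Type*} [CommRing R] [CommRing S] (f : R →+* S) (h c6 a b c : R) :
    f (Ex h c6 a b c) = Ex (f h) (f c6) (f a) (f b) (f c) := by
  simp [Ex, map_ofNat]

lemma Ex_natCast {B : Type*} [CommRing B] {h c6 : B} (h4 : h ^ 4 = 0) (hc6 : 6 * c6 = 1) (j : ℕ) :
    (Ex h c6 1 0 0) ^ j = Ex h c6 (j : B) 0 0 := by
  induction j with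
  | zero => simp [Ex]
  | succ j ih =>
    rw [pow_succ, ih, ← Ex_add h4 hc6]
    push_cast
    simp

/-- the ideal generated by `X^M` -/
noncomputable abbrev IM (M : ℕ) : Ideal (PowerSeries ℂ) := Ideal.span {PowerSeries.X ^ M}

/-- the truncated ring -/
noncomputable abbrev BM (M : ℕ) := PowerSeries ℂ ⧸ IM M

noncomputable abbrev pr (M : ℕ) : PowerSeries ℂ →+* BM M := Ideal.Quotient.mk (IM M)

noncomputable abbrev hh (M : ℕ) : BM M := pr M PowerSeries.X
noncomputable abbrev c6 (M : ℕ) : BM M := pr M (PowerSeries.C (1 / 6 : ℂ))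

lemma pr_eq_zero_iff (M : ℕ) (f : PowerSeries ℂ) : pr M f = 0 ↔ PowerSeries.X ^ M ∣ f := by
  rw [Ideal.Quotient.eq_zero_iff_mem, Ideal.mem_span_singleton]

lemma hh_pow (M : ℕ) : (hh M) ^ M = 0 := by
  rw [← map_pow, pr_eq_zero_iff]

lemma hh_four {M : ℕ} (hM : M ≤ 4) : (hh M) ^ 4 = 0 := by
  obtain ⟨j, hj⟩ := Nat.exists_eq_add_of_le hM
  rw [hj, pow_add, hh_pow, zero_mul]

lemma c6_eq (M : ℕ) : 6 * c6 M = 1 := by
  have h1 : (6 : PowerSeries ℂ) * PowerSeries.C (1 / 6 : ℂ) = 1 := by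
    have : (6 : PowerSeries ℂ) = PowerSeries.C (6 : ℂ) := (map_ofNat PowerSeries.C 6).symm
    rw [this, ← map_mul]
    norm_num
  have h2 := congrArg (pr M) h1
  rw [map_mul, map_one, map_ofNat] at h2
  exact h2

lemma pr_EE_pow {M : ℕ} (hM : M ≤ 4) (j : ℕ) : pr M (EE ^ j) = Ex (hh M) (c6 M) (j : BM M) 0 0 := by
  rw [map_pow, EE, map_Ex, map_one, map_zero]
  exact Ex_natCast (hh_four hM) (c6_eq M) j

lemma pr_qz {M : ℕ} (hM : M ≤ 4) {z : ℂ} (hz : z ≠ 0) {n : ℕ} (hzn : IsPrimitiveRoot z n) (t : ℤ) :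
    pr M (qz z hz (n * t)) = Ex (hh M) (c6 M) (n * (t : BM M)) 0 0 := by
  have key : ∀ j : ℕ, pr M (qz z hz (n * (j : ℤ))) = Ex (hh M) (c6 M) (n * (j : BM M)) 0 0 := by
    intro j
    have e1 : (n : ℤ) * (j : ℤ) = ((n * j : ℕ) : ℤ) := by push_cast; ring
    rw [e1, qz_natCast, qs, mul_pow, ← map_pow, pow_mul, hzn.pow_eq_one, one_pow, map_one, one_mul,
      pr_EE_pow hM]
    push_cast
    rfl
  rcases Int.le_total 0 t with ht | ht
  · obtain ⟨j, rfl⟩ := Int.eq_ofNat_of_zero_le ht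
    rw [key j]
    push_cast
    rfl
  · obtain ⟨j, hj⟩ := Int.eq_ofNat_of_zero_le (show (0 : ℤ) ≤ -t by omega)
    have ht' : t = -(j : ℤ) := by omega
    have h1 : pr M (qz z hz (n * t)) * pr M (qz z hz (n * (j : ℤ))) = 1 := by
      rw [← map_mul, ← qz_add, ht']
      have : (n : ℤ) * -(j : ℤ) + n * j = 0 := by ring
      rw [this, qz_zero, map_one]
    have h2 : Ex (hh M) (c6 M) (n * (t : BM M)) 0 0 * Ex (hh M) (c6 M) (n * (j : BM M)) 0 0 = 1 := by
      rw [← Ex_add (hh_four hM) (c6_eq M), ht']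
      push_cast
      have : (n : BM M) * -(j : BM M) + n * j = 0 := by ring
      rw [this, add_zero, Ex_zero]
    rw [key j] at h1
    calc pr M (qz z hz (n * t)) = pr M (qz z hz (n * t)) *
          (Ex (hh M) (c6 M) (n * (t : BM M)) 0 0 * Ex (hh M) (c6 M) (n * (j : BM M)) 0 0) := by
          rw [h2, mul_one]
      _ = (pr M (qz z hz (n * t)) * Ex (hh M) (c6 M) (n * (j : BM M)) 0 0) *
          Ex (hh M) (c6 M) (n * (t : BM M)) 0 0 := by ring
      _ = _ := by rw [h1, one_mul]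

/-- `v/(1-v)` for numerator factors, in power series -/
noncomputable def wn (z : ℂ) (hz : z ≠ 0) (d : ℕ) (j : ℕ) : PowerSeries ℂ :=
  qz z hz (d * j - 1) * (1 - qz z hz (d * j - 1))⁻¹
/-- `v/(1-v)` for denominator factors, in power series -/
noncomputable def wd (z : ℂ) (hz : z ≠ 0) (d : ℕ) (j : ℕ) : PowerSeries ℂ :=
  qz z hz (d * (j + 1)) * (1 - qz z hz (d * (j + 1)))⁻¹

lemma cc_num {z : ℂ} (hz : z ≠ 0) {d n N σ r : ℕ} (hzn : IsPrimitiveRoot z n)
    (hcop : Nat.Coprime d n) (hdn : σ * n = 1 + d * r) (hNr : N + r = n) (hr : 1 ≤ r) (j : ℕ)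
    (hj : j < N) :
    PowerSeries.constantCoeff (1 - qz z hz (d * j - 1)) ≠ 0 := by
  rw [map_sub, map_one, cc_qz]
  intro h
  have h1 : z ^ ((d : ℤ) * j - 1) = 1 := by linear_combination -h
  rw [hzn.zpow_eq_one_iff_dvd] at h1
  have hdnz : (σ : ℤ) * n = 1 + d * r := by exact_mod_cast hdn
  have hNrz : (N : ℤ) + r = n := by exact_mod_cast hNr
  have h2 : (n : ℤ) ∣ d * ((N - j : ℕ) : ℤ) := by
    rw [Nat.cast_sub hj.le]
    have : (d : ℤ) * (N - j) = n * (d - σ) - (d * j - 1) := by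
      linear_combination (d : ℤ) * hNrz + hdnz
    rw [this]
    exact dvd_sub (dvd_mul_right _ _) h1
  have h3 : n ∣ d * (N - j) := by exact_mod_cast h2
  have h4 : n ∣ N - j := (Nat.Coprime.dvd_mul_left hcop.symm).mp h3
  exact absurd (Nat.le_of_dvd (by omega) h4) (by omega)

lemma PR_expand {M : ℕ} (hM : M ≤ 4) {z : ℂ} (hz : z ≠ 0) {d n N σ r : ℕ}
    (hzn : IsPrimitiveRoot z n)
    (hcop : Nat.Coprime d n) (hdn : σ * n = 1 + d * r) (hNr : N + r = n) (hr : 1 ≤ r) (k : ℕ)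
    (hk : k ≤ N) (t : ℤ) :
    pr M (PR z hz d n k t) = pr M (PR z hz d n k 0) *
      Ex (hh M) (c6 M)
        ((ca (fun j => pr M (wn z hz d j)) (fun j => pr M (wd z hz d j)) k * n) * (t : BM M))
        ((cb (c6 M) (fun j => pr M (wn z hz d j)) (fun j => pr M (wd z hz d j)) k * n ^ 2) *
          (t : BM M) ^ 2)
        ((cc (c6 M) (fun j => pr M (wn z hz d j)) (fun j => pr M (wd z hz d j)) k * n ^ 3) *
          (t : BM M) ^ 3) := by
  have h0 := phi_expand (hh_four hM) (c6_eq M) k (fun j => pr M (qz z hz (d * j - 1)))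
    (fun j => pr M (qz z hz (d * (j + 1)))) (fun j => pr M (wn z hz d j))
    (fun j => pr M (wd z hz d j)) (fun j => pr M ((1 - qz z hz (d * (j + 1) - n * t))⁻¹))
    (fun j => pr M ((1 - qz z hz (d * (j + 1)))⁻¹)) ((n : BM M) * t)
    (by
      intro j hj
      rw [← map_one (pr M), ← map_sub, ← map_mul, wn, mul_assoc,
        PowerSeries.inv_mul_cancel _ (cc_num hz hzn hcop hdn hNr hr j (by omega)), mul_one])
    (by
      intro j hj
      have h1 := cc_den hz hzn hcop j (by omega) 0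
      rw [mul_zero, sub_zero] at h1
      rw [← map_one (pr M), ← map_sub, ← map_mul, wd, mul_assoc,
        PowerSeries.inv_mul_cancel _ h1, mul_one])
    (by
      intro j hj
      have h1 := cc_den hz hzn hcop j (by omega) t
      have h2 : -((n : BM M) * t) = n * ((-t : ℤ) : BM M) := by push_cast; ring
      rw [h2, ← pr_qz hM hz hzn (-t), ← map_mul, ← qz_add]
      have h3 : (d : ℤ) * (j + 1) + n * -t = d * (j + 1) - n * t := by ring
      rw [h3, ← map_one (pr M), ← map_sub, ← map_mul, PowerSeries.inv_mul_cancel _ h1])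
    (by
      intro j hj
      have h1 := cc_den hz hzn hcop j (by omega) 0
      rw [mul_zero, sub_zero] at h1
      rw [← map_one (pr M), ← map_sub, ← map_mul, PowerSeries.inv_mul_cancel _ h1])
  have e1 : pr M (PR z hz d n k t) = ∏ j ∈ range k,
      ((1 - pr M (qz z hz (d * j - 1)) * Ex (hh M) (c6 M) ((n : BM M) * t) 0 0) *
        pr M ((1 - qz z hz (d * (j + 1) - n * t))⁻¹)) := by
    unfold PR
    rw [map_prod]
    apply prod_congr rfl
    intro j _
    rw [← pr_qz hM hz hzn t, ← map_mul, ← qz_add, map_mul, map_sub, map_one]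
  have e2 : pr M (PR z hz d n k 0) = ∏ j ∈ range k,
      ((1 - pr M (qz z hz (d * j - 1))) * pr M ((1 - qz z hz (d * (j + 1)))⁻¹)) := by
    unfold PR
    rw [map_prod]
    apply prod_congr rfl
    intro j _
    rw [mul_zero, add_zero, sub_zero, map_mul, map_sub, map_one]
  rw [e1, e2, h0]
  congr 2 <;> ring

/-- the conclusion in the truncated ring for `k ≤ N`. -/
lemma trunc_zero {M : ℕ} (hM : M ≤ 4) {z : ℂ} (hz : z ≠ 0) {d n e r N m : ℕ} {σ : ℕ} {s : ℕ}
    (hzn : IsPrimitiveRoot z n) (hcop : Nat.Coprime d n) (he : 2 ≤ e) (hde : d = 2 * e + 1)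
    (hdn : σ * n = 1 + d * r) (hd5 : 5 ≤ d)
    (hNr : N + r = n) (hr : 1 ≤ r) (hσ : σ = 1 ∨ σ = 2) (hs0 : 0 < s) (hsd : s < d)
    (hsσ : s + e * σ = d)
    (hs : 2 * s * n = 1 + d * (2 * m + 1)) (hN : (e - 1) * (r - 1) + m + e = N)
    (hS3 : (hh M) ^ 3 * ∑ k ∈ range (N + 1),
      pr M (qz z hz (d * (e * k)) * (1 - qz z hz (2 * d * k - 1))) *
      (pr M (PR z hz d n k 0)) ^ d * (cc (c6 M) (fun j => pr M (wn z hz d j))
        (fun j => pr M (wd z hz d j)) k * n ^ 3) = 0) :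
    ∑ k ∈ range (N + 1), pr M (qz z hz (d * (e * k)) * (1 - qz z hz (2 * d * k - 1))) *
      (pr M (PR z hz d n k 0)) ^ d = 0 := by
  obtain ⟨e', rfl⟩ : ∃ e', e = e' + 2 := ⟨e - 2, by omega⟩
  have hdd : d = 2 * (e' + 1) + 3 := by omega
  have ht : ∃ t : BM M, (6 - 2 * ((σ : ℤ) : BM M)) * t = 1 := by
    have h6 := c6_eq M
    rcases hσ with h | h
    · refine ⟨9 * c6 M ^ 2, ?_⟩
      rw [h]; push_cast
      linear_combination (6 * c6 M + 1) * h6
    · refine ⟨3 * c6 M, ?_⟩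
      rw [h]; push_cast
      linear_combination h6
  obtain ⟨t, ht⟩ := ht
  have h1 := ring_main (hh_four hM) (c6_eq M) N (fun k t => pr M (PR z hz d n k t))
    (fun k => pr M (qz z hz (d * ((e' + 2 : ℕ) * k)) * (1 - qz z hz (2 * d * k - 1))))
    (fun k => (ca (fun j => pr M (wn z hz d j)) (fun j => pr M (wd z hz d j)) k * n))
    (fun k => (cb (c6 M) (fun j => pr M (wn z hz d j)) (fun j => pr M (wd z hz d j)) k * n ^ 2))
    (fun k => (cc (c6 M) (fun j => pr M (wn z hz d j)) (fun j => pr M (wd z hz d j)) k * n ^ 3))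
    (by
      intro k hk t
      rw [mem_range] at hk
      exact PR_expand hM hz hzn hcop hdn hNr hr k (by omega) t)
    e' σ (σ - d) s
    (by
      have : (s : ℤ) + (e' + 2) * σ = d := by exact_mod_cast hsσ
      push_cast
      linear_combination this)
    t ht
    (by rw [← hdd]; exact hS3)
    (by
      intro u hu
      have h2 := PR_zero hz hzn hcop (by omega) hdn hd5 hNr hr hσ hs0 hsd hs hN u hu (by omega)
      have h3 := congrArg (pr M) h2
      rw [map_sum, map_zero] at h3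
      rw [← h3]
      apply sum_congr rfl
      intro k _
      simp only [map_mul, map_prod]
      rfl)
  rw [← hdd] at h1
  exact h1

end Pool.Agent.Work.MP_dcacaa_nt
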