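import Mathlib
import Pool.Agent.Work.MP_dcacaa_nt.Quot

set_option autoImplicit false

namespace Pool.Agent.Work.MP_dcacaa_nt

open Finset

/-- series version of the cubic coefficient -/
noncomputable def CCs (z : ℂ) (hz : z ≠ 0) (d k : ℕ) : PowerSeries ℂ :=
  ∑ j ∈ range k, (-(PowerSeries.C (1 / 6 : ℂ) * wn z hz d j * (1 + wn z hz d j) *
      (1 + 2 * wn z hz d j)) +
    -(PowerSeries.C (1 / 6 : ℂ) * wd z hz d j * (1 + wd z hz d j) * (1 + 2 * wd z hz d j)))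

lemma pr_CCs (M : ℕ) (z : ℂ) (hz : z ≠ 0) (d k : ℕ) :
    pr M (CCs z hz d k) = cc (c6 M) (fun j => pr M (wn z hz d j)) (fun j => pr M (wd z hz d j)) k := by
  unfold CCs cc
  rw [map_sum]
  apply sum_congr rfl
  intro j _
  simp only [map_add, map_neg, map_mul, map_one, map_ofNat]

lemma zpow_aux {z : ℂ} (hz : z ≠ 0) (d : ℕ) (j : ℕ) : z ^ ((d : ℤ) * j - 1) = z⁻¹ * (z ^ d) ^ j := by
  rw [← pow_mul, sub_eq_add_neg, zpow_add₀ hz, zpow_neg_one, mul_comm]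
  congr 1

lemma cc_wn {z : ℂ} (hz : z ≠ 0) (d j : ℕ) : PowerSeries.constantCoeff (wn z hz d j) =
    (z⁻¹ * (z ^ d) ^ j) * (1 - z⁻¹ * (z ^ d) ^ j)⁻¹ := by
  unfold wn
  rw [map_mul, PowerSeries.constantCoeff_inv, map_sub, map_one, cc_qz, zpow_aux hz]

lemma cc_wd {z : ℂ} (hz : z ≠ 0) (d j : ℕ) : PowerSeries.constantCoeff (wd z hz d j) =
    ((z ^ d) ^ (j + 1)) * (1 - (z ^ d) ^ (j + 1))⁻¹ := by
  unfold wd
  have h1 : z ^ ((d : ℤ) * (j + 1)) = (z ^ d) ^ (j + 1) := by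
    rw [← pow_mul]; exact_mod_cast rfl
  rw [map_mul, PowerSeries.constantCoeff_inv, map_sub, map_one, cc_qz, h1]

lemma cc_PR {z : ℂ} (hz : z ≠ 0) (d n k : ℕ) : PowerSeries.constantCoeff (PR z hz d n k 0) =
    ∏ j ∈ range k, ((1 - z⁻¹ * (z ^ d) ^ j) * (1 - (z ^ d) ^ (j + 1))⁻¹) := by
  unfold PR
  rw [map_prod]
  apply prod_congr rfl
  intro j _
  have h1 : z ^ ((d : ℤ) * (j + 1)) = (z ^ d) ^ (j + 1) := by
    rw [← pow_mul]; exact_mod_cast rfl
  rw [map_mul, PowerSeries.constantCoeff_inv, map_sub, map_sub, map_one, cc_qz, cc_qz, mul_zero,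
    add_zero, sub_zero, zpow_aux hz, h1]

lemma cc_CCs {z : ℂ} (hz : z ≠ 0) (d k : ℕ) : PowerSeries.constantCoeff (CCs z hz d k) =
    ∑ j ∈ range k, (-kap (z⁻¹ * (z ^ d) ^ j) + -kap ((z ^ d) ^ (j + 1))) := by
  unfold CCs kap
  rw [map_sum]
  apply sum_congr rfl
  intro j _
  simp only [map_add, map_neg, map_mul, map_one, map_ofNat, cc_wn, cc_wd,
    PowerSeries.constantCoeff_C]

lemma hS3_b {z : ℂ} (hz : z ≠ 0) {d n e r N : ℕ}
    (hzn : IsPrimitiveRoot z n) (hn1 : 1 < n) (he : 2 ≤ e) (hde : d = 2 * e + 1)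
    (hdn : 2 * n = 1 + d * r) (hNr : N + r = n) :
    (hh 4) ^ 3 * ∑ k ∈ range (N + 1),
      pr 4 (qz z hz (d * (e * k)) * (1 - qz z hz (2 * d * k - 1))) *
      (pr 4 (PR z hz d n k 0)) ^ d * (cc (c6 4) (fun j => pr 4 (wn z hz d j))
        (fun j => pr 4 (wd z hz d j)) k * n ^ 3) = 0 := by
  set F : PowerSeries ℂ := ∑ k ∈ range (N + 1), (qz z hz (d * (e * k)) *
    (1 - qz z hz (2 * d * k - 1))) * (PR z hz d n k 0) ^ d * (CCs z hz d k * (n : PowerSeries ℂ) ^ 3) with hF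
  have h1 : (hh 4) ^ 3 * ∑ k ∈ range (N + 1),
      pr 4 (qz z hz (d * (e * k)) * (1 - qz z hz (2 * d * k - 1))) *
      (pr 4 (PR z hz d n k 0)) ^ d * (cc (c6 4) (fun j => pr 4 (wn z hz d j))
        (fun j => pr 4 (wd z hz d j)) k * n ^ 3) = pr 4 (PowerSeries.X ^ 3 * F) := by
    rw [map_mul, map_pow, hF, map_sum]
    congr 1
    apply sum_congr rfl
    intro k _
    rw [map_mul (pr 4) _ (CCs z hz d k * (n : PowerSeries ℂ) ^ 3), map_mul (pr 4) _ (PR z hz d n k 0 ^ d),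
      map_pow, map_mul (pr 4) (CCs z hz d k), pr_CCs, map_pow, map_natCast]
  rw [h1, pr_eq_zero_iff]
  have h2 : PowerSeries.constantCoeff F = 0 := by
    rw [hF, map_sum]
    have h3 := residue_sum n d e r N hde (by omega) hdn hNr hn1 hzn
    have h4 : ∀ k ∈ range (N + 1), PowerSeries.constantCoeff ((qz z hz (d * (e * k)) *
        (1 - qz z hz (2 * d * k - 1))) * (PR z hz d n k 0) ^ d * (CCs z hz d k * (n : PowerSeries ℂ) ^ 3)) =
        (((z ^ d) ^ (e * k) * (1 - z⁻¹ * (z ^ d) ^ (2 * k))) *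
      (∏ j ∈ range k, ((1 - z⁻¹ * (z ^ d) ^ j) * (1 - (z ^ d) ^ (j + 1))⁻¹)) ^ d *
      (∑ j ∈ range k, (-kap (z⁻¹ * (z ^ d) ^ j) + -kap ((z ^ d) ^ (j + 1))))) * (n : ℂ) ^ 3 := by
      intro k _
      have e1 : z ^ ((d : ℤ) * (e * k)) = (z ^ d) ^ (e * k) := by
        rw [← pow_mul]; exact_mod_cast rfl
      have e2 : z ^ (2 * (d : ℤ) * k - 1) = z⁻¹ * (z ^ d) ^ (2 * k) := by
        rw [← zpow_aux hz]; congr 1; push_cast; ring
      rw [map_mul, map_mul, map_mul, map_mul, map_pow, map_pow, map_natCast, cc_PR, cc_CCs,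
        map_sub, map_one, cc_qz, cc_qz, e1, e2]
      ring
    rw [sum_congr rfl h4, ← sum_mul, h3, zero_mul]
  have h5 : PowerSeries.X ∣ F := PowerSeries.X_dvd_iff.mpr h2
  rw [pow_succ]
  exact mul_dvd_mul_left _ h5

/-- main series statement -/
lemma series_main {M : ℕ} (hM : M ≤ 4) {z : ℂ} (hz : z ≠ 0) {d n e r N m : ℕ} {σ : ℕ} {s : ℕ}
    (hzn : IsPrimitiveRoot z n) (hcop : Nat.Coprime d n) (he : 2 ≤ e) (hde : d = 2 * e + 1)
    (hdn : σ * n = 1 + d * r)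
    (hNr : N + r = n) (hr : 1 ≤ r) (hσ : σ = 1 ∨ σ = 2) (hs0 : 0 < s) (hsd : s < d)
    (hsσ : s + e * σ = d)
    (hs : 2 * s * n = 1 + d * (2 * m + 1)) (hN : (e - 1) * (r - 1) + m + e = N)
    (hS3 : (hh M) ^ 3 * ∑ k ∈ range (N + 1),
      pr M (qz z hz (d * (e * k)) * (1 - qz z hz (2 * d * k - 1))) *
      (pr M (PR z hz d n k 0)) ^ d * (cc (c6 M) (fun j => pr M (wn z hz d j))
        (fun j => pr M (wd z hz d j)) k * n ^ 3) = 0) :
    PowerSeries.X ^ M ∣ ∑ k ∈ range n, (qz z hz (d * (e * k)) * (1 - qz z hz (2 * d * k - 1))) *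
      (PR z hz d n k 0) ^ d := by
  have h1 := trunc_zero hM hz hzn hcop he hde hdn (by omega) hNr hr hσ hs0 hsd hsσ hs hN hS3
  rw [← pr_eq_zero_iff, map_sum]
  have hsub : range (N + 1) ⊆ range n := by
    intro k hk; rw [mem_range] at *; omega
  rw [← sum_subset hsub, ← h1]
  · apply sum_congr rfl
    intro k _
    rw [map_mul, map_pow]
  · intro k hk hk'
    rw [mem_range] at hk hk'
    have hNk : N < k := by omega
    rw [map_mul, map_pow]
    have h2 : ∃ y, pr M (PR z hz d n k 0) = hh M * y := by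
      unfold PR
      rw [← mul_prod_erase (range k) _ (mem_range.mpr hNk), map_mul, map_mul]
      have hdnz : (σ : ℤ) * n = 1 + d * r := by exact_mod_cast hdn
      have hNrz : (N : ℤ) + r = n := by exact_mod_cast hNr
      have e1 : (d : ℤ) * N - 1 + n * 0 = n * (d - σ) := by
        linear_combination (d : ℤ) * hNrz + hdnz
      rw [e1, map_sub, map_one, pr_qz hM hz hzn]
      unfold Ex
      generalize pr M (1 - qz z hz (d * (N + 1) - n * 0))⁻¹ = y1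
      generalize pr M (∏ x ∈ (range k).erase N, ((1 - qz z hz (d * x - 1 + n * 0)) *
          (1 - qz z hz (d * (x + 1) - n * 0))⁻¹)) = y2
      refine ⟨-((n * (((d : ℤ) - σ : ℤ) : BM M)) + hh M * (0 + 3 * c6 M *
        (n * (((d : ℤ) - σ : ℤ) : BM M)) ^ 2) + (hh M) ^ 2 * (0 + (n * (((d : ℤ) - σ : ℤ) : BM M)) * 0
        + c6 M * (n * (((d : ℤ) - σ : ℤ) : BM M)) ^ 3)) * y1 * y2, ?_⟩
      ring
    obtain ⟨y, hy⟩ := h2
    rw [hy, mul_pow]
    have h3 : (hh M) ^ d = 0 := by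
      obtain ⟨t, ht⟩ := Nat.exists_eq_add_of_le (show 4 ≤ d by omega)
      rw [ht, pow_add, hh_four hM, zero_mul]
    rw [h3, zero_mul, mul_zero]

end Pool.Agent.Work.MP_dcacaa_nt
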