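import Mathlib
import Pool.Agent.Work.MP_dcacaa_nt.Final

set_option autoImplicit false

namespace Pool.Agent.Work.MP_dcacaa_nt

open Polynomial

/-- the polynomial version of `qs` -/
noncomputable def qp (z : ℂ) : ℂ[X] := C z * Ex X (C (1 / 6 : ℂ)) 1 0 0

lemma qp_coe (z : ℂ) : Polynomial.coeToPowerSeries.ringHom (qp z) = qs z := by
  unfold qp qs EE
  rw [map_mul, map_Ex]
  simp

/-- evaluation of rational polynomials at `q` -/
noncomputable def gs (z : ℂ) : ℚ[X] →+* PowerSeries ℂ :=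
  (Polynomial.coeToPowerSeries.ringHom).comp
    ((Polynomial.compRingHom (qp z)).comp (Polynomial.mapRingHom (algebraMap ℚ ℂ)))

lemma gs_X (z : ℂ) : gs z X = qs z := by
  unfold gs
  rw [RingHom.comp_apply, RingHom.comp_apply, coe_mapRingHom, map_X, coe_compRingHom_apply, X_comp,
    qp_coe]

lemma gs_inj {z : ℂ} (hz : z ≠ 0) : Function.Injective (gs z) := by
  rw [injective_iff_map_eq_zero]
  intro p hp
  unfold gs at hp
  rw [RingHom.comp_apply, RingHom.comp_apply, coe_mapRingHom, coe_compRingHom_apply] at hp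
  have h1 : ((p.map (algebraMap ℚ ℂ)).comp (qp z)) = 0 := by
    have hinj : Function.Injective (Polynomial.coeToPowerSeries.ringHom : ℂ[X] →+* PowerSeries ℂ) :=
      Polynomial.coe_injective ℂ
    apply hinj
    rw [hp, map_zero]
  rw [comp_eq_zero_iff] at h1
  rcases h1 with h1 | h1
  · exact (Polynomial.map_eq_zero_iff (algebraMap ℚ ℂ).injective).mp h1
  · exfalso
    have h2 := congrArg (fun p => coeff p 1) h1.2
    simp only [coeff_C] at h2
    have h3 : (qp z).coeff 1 = z := by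
      have h4 := congrArg (PowerSeries.coeff 1) (qp_coe z)
      have h5 := coeff_one_qs_pow z 1
      rw [pow_one] at h5
      rw [h5] at h4
      simpa using h4
    rw [h3] at h2
    simp at h2
    exact hz h2

/-- evaluation of integer polynomials at `q` -/
noncomputable def ev (z : ℂ) : ℤ[X] →+* PowerSeries ℂ :=
  (gs z).comp (mapRingHom (Int.castRingHom ℚ))

lemma ev_X (z : ℂ) : ev z X = qs z := by
  unfold ev
  rw [RingHom.comp_apply, coe_mapRingHom, map_X, gs_X]

lemma cc_ev (z : ℂ) (A : ℤ[X]) : PowerSeries.constantCoeff (ev z A) = aeval z A := by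
  have h : (PowerSeries.constantCoeff (R := ℂ)).comp (ev z) = (aeval z : ℤ[X] →ₐ[ℤ] ℂ).toRingHom := by
    apply Polynomial.ringHom_ext
    · intro a
      simp
    · rw [RingHom.comp_apply, ev_X, cc_qs]
      simp
  have := congrArg (fun f => f A) h
  simpa using this

lemma ev_dvd {z : ℂ} {n : ℕ} (hn : 0 < n) (hz : IsPrimitiveRoot z n) (M : ℕ) (A : ℤ[X])
    (h : PowerSeries.X ^ M ∣ ev z A) : cyclotomic n ℤ ^ M ∣ A := by
  have hz0 : z ≠ 0 := hz.ne_zero (by omega)
  -- the image of the cyclotomic polynomial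
  have hX1 : PowerSeries.X ∣ ev z (cyclotomic n ℤ) := by
    rw [PowerSeries.X_dvd_iff, cc_ev]
    rw [cyclotomic_eq_minpoly hz hn]
    exact minpoly.aeval ℤ z
  have hX2 : ¬ PowerSeries.X ^ 2 ∣ ev z (cyclotomic n ℤ) := by
    intro h2
    have h3 : ev z (cyclotomic n ℤ) ∣ ev z (X ^ n - 1) := map_dvd _ (cyclotomic.dvd_X_pow_sub_one n ℤ)
    have h4 := h2.trans h3
    rw [map_sub, map_pow, map_one, ev_X, PowerSeries.X_pow_dvd_iff] at h4
    have h5 := h4 1 (by norm_num)
    rw [map_sub, coeff_one_qs_pow, PowerSeries.coeff_one] at h5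
    simp at h5
    rcases h5 with h5 | h5
    · omega
    · exact hz0 h5.1
  obtain ⟨g, hg⟩ := hX1
  have hgX : ¬ PowerSeries.X ∣ g := by
    rintro ⟨g', hg'⟩
    apply hX2
    rw [hg, hg', pow_two]
    exact ⟨g', by ring⟩
  induction M generalizing A with
  | zero => simp
  | succ M ih =>
    have h1 : PowerSeries.X ∣ ev z A := (dvd_pow_self _ (Nat.succ_ne_zero M)).trans h
    rw [PowerSeries.X_dvd_iff, cc_ev] at h1
    have h2 : cyclotomic n ℤ ∣ A := by
      rw [cyclotomic_eq_minpoly hz hn]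
      exact minpoly.isIntegrallyClosed_dvd (hz.isIntegral hn) h1
    obtain ⟨A1, rfl⟩ := h2
    rw [map_mul, hg, pow_succ, mul_comm (PowerSeries.X ^ M), mul_assoc] at h
    have h3 : PowerSeries.X ^ M ∣ g * ev z A1 :=
      (mul_dvd_mul_iff_left PowerSeries.X_ne_zero).mp h
    have h4 : PowerSeries.X ^ M ∣ ev z A1 :=
      (PowerSeries.X_prime.pow_dvd_of_dvd_mul_left M hgX h3)
    rw [pow_succ, mul_comm]
    exact mul_dvd_mul_left _ (ih A1 h4)

/-- embedding of integer polynomials in rational functions -/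
noncomputable def toR : ℤ[X] →+* RatFunc ℚ :=
  (algebraMap ℚ[X] (RatFunc ℚ)).comp (mapRingHom (Int.castRingHom ℚ))

lemma toR_inj : Function.Injective toR := by
  unfold toR
  rw [RingHom.coe_comp]
  refine (RatFunc.algebraMap_injective ℚ).comp ?_
  rw [coe_mapRingHom]
  exact Polynomial.map_injective _ (Int.cast_injective)

lemma toR_X : toR X = RatFunc.X := by
  unfold toR
  rw [RingHom.comp_apply, coe_mapRingHom, map_X, RatFunc.algebraMap_X]

/-- regular at the cyclotomic polynomial -/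
def Loc (n : ℕ) (f : RatFunc ℚ) : Prop :=
  ∃ A B : ℤ[X], ¬ cyclotomic n ℤ ∣ B ∧ f = toR A / toR B

lemma cyc_prime {n : ℕ} (hn : 0 < n) : Prime (cyclotomic n ℤ) :=
  (cyclotomic.irreducible hn).prime

lemma toR_ne_zero {n : ℕ} {B : ℤ[X]} (hB : ¬ cyclotomic n ℤ ∣ B) : toR B ≠ 0 := by
  intro h
  apply hB
  have : B = 0 := toR_inj (by rw [h, map_zero])
  rw [this]
  exact dvd_zero _

lemma Loc.of_int {n : ℕ} (hn : 0 < n) (A : ℤ[X]) : Loc n (toR A) := by
  refine ⟨A, 1, ?_, by simp⟩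
  intro h
  exact (cyc_prime hn).not_unit (isUnit_of_dvd_one h)

lemma Loc.add {n : ℕ} (hn : 0 < n) {f g : RatFunc ℚ} (hf : Loc n f) (hg : Loc n g) :
    Loc n (f + g) := by
  obtain ⟨A, B, hB, rfl⟩ := hf
  obtain ⟨A', B', hB', rfl⟩ := hg
  refine ⟨A * B' + B * A', B * B', ?_, ?_⟩
  · intro h
    rcases (cyc_prime hn).dvd_or_dvd h with h | h
    · exact hB h
    · exact hB' h
  · rw [div_add_div _ _ (toR_ne_zero hB) (toR_ne_zero hB'), map_add, map_mul, map_mul, map_mul]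

lemma Loc.mul {n : ℕ} (hn : 0 < n) {f g : RatFunc ℚ} (hf : Loc n f) (hg : Loc n g) :
    Loc n (f * g) := by
  obtain ⟨A, B, hB, rfl⟩ := hf
  obtain ⟨A', B', hB', rfl⟩ := hg
  refine ⟨A * A', B * B', ?_, ?_⟩
  · intro h
    rcases (cyc_prime hn).dvd_or_dvd h with h | h
    · exact hB h
    · exact hB' h
  · rw [div_mul_div_comm, map_mul, map_mul]

lemma Loc.inv {n : ℕ} (hn : 0 < n) {B : ℤ[X]} (hB : ¬ cyclotomic n ℤ ∣ B) :
    Loc n (toR B)⁻¹ := by
  refine ⟨1, B, hB, by simp⟩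

lemma Loc.one {n : ℕ} (hn : 0 < n) : Loc n 1 := by
  have := Loc.of_int hn 1
  rwa [map_one] at this

lemma Loc.pow {n : ℕ} (hn : 0 < n) {f : RatFunc ℚ} (hf : Loc n f) (m : ℕ) : Loc n (f ^ m) := by
  induction m with
  | zero => rw [pow_zero]; exact Loc.one hn
  | succ m ih => rw [pow_succ]; exact ih.mul hn hf

lemma Loc.sum {n : ℕ} (hn : 0 < n) {ι : Type*} (s : Finset ι) (f : ι → RatFunc ℚ)
    (hf : ∀ i ∈ s, Loc n (f i)) : Loc n (∑ i ∈ s, f i) := by
  classical
  induction s using Finset.induction_on with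
  | empty =>
    rw [Finset.sum_empty]
    have := Loc.of_int hn 0
    rwa [map_zero] at this
  | insert i s hi ih =>
    rw [Finset.sum_insert hi]
    exact (hf i (Finset.mem_insert_self i s)).add hn
      (ih (fun j hj => hf j (Finset.mem_insert_of_mem hj)))

lemma Loc.prod {n : ℕ} (hn : 0 < n) {ι : Type*} (s : Finset ι) (f : ι → RatFunc ℚ)
    (hf : ∀ i ∈ s, Loc n (f i)) : Loc n (∏ i ∈ s, f i) := by
  classical
  induction s using Finset.induction_on with
  | empty => rw [Finset.prod_empty]; exact Loc.one hn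
  | insert i s hi ih =>
    rw [Finset.prod_insert hi]
    exact (hf i (Finset.mem_insert_self i s)).mul hn
      (ih (fun j hj => hf j (Finset.mem_insert_of_mem hj)))

lemma not_dvd_X {n : ℕ} (hn : 0 < n) : ¬ cyclotomic n ℤ ∣ (X : ℤ[X]) := by
  rintro ⟨A, hA⟩
  have hz := Complex.isPrimitiveRoot_exp n (by omega)
  have h1 := congrArg (aeval (Complex.exp (2 * Real.pi * Complex.I / n))) hA
  rw [map_mul, cyclotomic_eq_minpoly hz hn, minpoly.aeval, zero_mul, aeval_X] at h1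
  exact hz.ne_zero (by omega) h1

lemma not_dvd_one_sub {n : ℕ} (hn : 0 < n) {j : ℕ} (hj : ¬ n ∣ j) :
    ¬ cyclotomic n ℤ ∣ (1 - X ^ j : ℤ[X]) := by
  rintro ⟨A, hA⟩
  have hz := Complex.isPrimitiveRoot_exp n (by omega)
  have h1 := congrArg (aeval (Complex.exp (2 * Real.pi * Complex.I / n))) hA
  rw [map_mul, cyclotomic_eq_minpoly hz hn, minpoly.aeval, zero_mul, map_sub, map_one, map_pow,
    aeval_X] at h1
  apply hj
  rw [← hz.pow_eq_one_iff_dvd]
  linear_combination -h1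

lemma Loc.X_zpow {n : ℕ} (hn : 0 < n) (m : ℤ) : Loc n ((RatFunc.X : RatFunc ℚ) ^ m) := by
  rcases Int.le_total 0 m with h | h
  · obtain ⟨j, rfl⟩ := Int.eq_ofNat_of_zero_le h
    rw [zpow_natCast, ← toR_X, ← map_pow]
    exact Loc.of_int hn _
  · obtain ⟨j, hj⟩ := Int.eq_ofNat_of_zero_le (show (0 : ℤ) ≤ -m by omega)
    have : m = -(j : ℤ) := by omega
    rw [this, zpow_neg, zpow_natCast, ← toR_X, ← inv_pow]
    exact (Loc.inv hn (not_dvd_X hn)).pow hn j

lemma Loc.one_sub {n : ℕ} (hn : 0 < n) {f : RatFunc ℚ} (hf : Loc n f) : Loc n (1 - f) := by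
  have h1 : (1 : RatFunc ℚ) - f = 1 + toR (-1) * f := by
    rw [map_neg, map_one]; ring
  rw [h1]
  exact (Loc.one hn).add hn ((Loc.of_int hn (-1)).mul hn hf)

/-- The transfer principle. -/
lemma transfer {n : ℕ} (hn : 0 < n) {z : ℂ} (hz : IsPrimitiveRoot z n) (M : ℕ)
    (Ev : RatFunc ℚ →+* LL) (hEv : ∀ p : ℚ[X], Ev (algebraMap ℚ[X] (RatFunc ℚ) p) = io (gs z p))
    (S : RatFunc ℚ) (hS : Loc n S) (SR : PowerSeries ℂ) (hSR : Ev S = io SR)
    (hX : PowerSeries.X ^ M ∣ SR) :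
    ∃ A B : ℤ[X], cyclotomic n ℤ ^ M ∣ A ∧ IsRelPrime B (cyclotomic n ℤ) ∧
      S = algebraMap ℚ[X] (RatFunc ℚ) (A.map (Int.castRingHom ℚ)) /
        algebraMap ℚ[X] (RatFunc ℚ) (B.map (Int.castRingHom ℚ)) := by
  obtain ⟨A, B, hB, hAB⟩ := hS
  refine ⟨A, B, ?_, ?_, hAB⟩
  · apply ev_dvd hn hz
    have hEv' : ∀ p : ℤ[X], Ev (toR p) = io (ev z p) := fun p => hEv _
    have h1 : Ev (toR A) = Ev S * Ev (toR B) := by
      rw [← map_mul, hAB, div_mul_cancel₀ _ (toR_ne_zero hB)]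
    rw [hEv', hEv', hSR, ← map_mul] at h1
    have h2 := io_inj h1
    rw [h2]
    exact hX.mul_right _
  · have hirr : Irreducible (cyclotomic n ℤ) := cyclotomic.irreducible hn
    exact ((hirr.isRelPrime_iff_not_dvd).mpr hB).symm

end Pool.Agent.Work.MP_dcacaa_nt
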